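import Mathlib

set_option autoImplicit false

namespace Pool.Agent.Hhelper41.Cover

/-- Finite hypergraph Ramsey theorem, set version. -/
theorem ramsey_set (n : ℕ) : ∀ (C : Type) [Finite C] (m : ℕ), ∃ M : ℕ,
    ∀ f : Finset ℕ → C, ∀ X : Finset ℕ, M ≤ X.card →
      ∃ Y ⊆ X, Y.card = m ∧ ∃ k : C, ∀ s ⊆ Y, s.card = n → f s = k := by
  induction n with
  | zero =>
    intro C _ m
    refine ⟨m, fun f X hX => ?_⟩
    obtain ⟨Y, hYX, hY⟩ := Finset.exists_subset_card_eq hX
    refine ⟨Y, hYX, hY, f ∅, fun s _ hs => ?_⟩
    rw [Finset.card_eq_zero.mp hs]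
  | succ n ih =>
    intro C hC m
    -- min-homogeneous sets
    have pre : ∀ l : ℕ, ∃ M : ℕ, ∀ f : Finset ℕ → C, ∀ X : Finset ℕ, M ≤ X.card →
        ∃ Z ⊆ X, Z.card = l ∧ ∃ c : ℕ → C, ∀ s ⊆ Z, s.card = n + 1 →
          ∀ x ∈ s, (∀ y ∈ s, x ≤ y) → f s = c x := by
      intro l
      induction l with
      | zero =>
        refine ⟨0, fun f X _ => ⟨∅, Finset.empty_subset _, rfl, fun _ => f ∅, ?_⟩⟩
        intro s hs hcard
        have : s = ∅ := Finset.subset_empty.mp hs
        rw [this] at hcard
        simp at hcard
      | succ l ihl =>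
        obtain ⟨M1, hM1⟩ := ihl
        obtain ⟨M2, hM2⟩ := ih C M1
        refine ⟨M2 + 1, fun f X hX => ?_⟩
        have hne : X.Nonempty := by
          rw [← Finset.card_pos]; omega
        set x := X.min' hne with hx
        have hxX : x ∈ X := Finset.min'_mem _ _
        have hcard : M2 ≤ (X.erase x).card := by
          rw [Finset.card_erase_of_mem hxX]; omega
        obtain ⟨Y, hY, hYc, k, hk⟩ := hM2 (fun s => f (insert x s)) (X.erase x) hcard
        obtain ⟨Z, hZ, hZc, c, hc⟩ := hM1 f Y (by omega)
        have hZX : Z ⊆ X.erase x := hZ.trans hY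
        have hxZ : x ∉ Z := fun h => by
          have := hZX h
          simp at this
        have hlt : ∀ y ∈ Z, x < y := by
          intro y hy
          have h1 := hZX hy
          rw [Finset.mem_erase] at h1
          have h2 : x ≤ y := Finset.min'_le _ _ h1.2
          exact lt_of_le_of_ne h2 (Ne.symm h1.1)
        refine ⟨insert x Z, ?_, ?_, Function.update c x k, ?_⟩
        · intro y hy
          rcases Finset.mem_insert.mp hy with h | h
          · rw [h]; exact hxX
          · exact Finset.mem_of_mem_erase (hZX h)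
        · rw [Finset.card_insert_of_notMem hxZ, hZc]
        · intro s hs hsc z hz hmin
          by_cases hxs : x ∈ s
          · have hzx : z = x := by
              have h1 : z ≤ x := hmin x hxs
              rcases Finset.mem_insert.mp (hs hz) with h | h
              · exact h
              · have := hlt z h
                omega
            rw [hzx, Function.update_self]
            have h2 : s.erase x ⊆ Y := by
              intro y hy
              rw [Finset.mem_erase] at hy
              rcases Finset.mem_insert.mp (hs hy.2) with h | h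
              · exact absurd h hy.1
              · exact hZ h
            have h3 : (s.erase x).card = n := by
              rw [Finset.card_erase_of_mem hxs, hsc]; rfl
            have h4 := hk (s.erase x) h2 h3
            rw [Finset.insert_erase hxs] at h4
            exact h4
          · have hsZ : s ⊆ Z := by
              intro y hy
              rcases Finset.mem_insert.mp (hs hy) with h | h
              · rw [h] at hy; exact absurd hy hxs
              · exact h
            have hzx : z ≠ x := fun h => hxs (h ▸ hz)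
            rw [Function.update_of_ne hzx]
            exact hc s hsZ hsc z hz hmin
    classical
    have := Fintype.ofFinite C
    obtain ⟨M, hM⟩ := pre (Fintype.card C * m)
    refine ⟨M, fun f X hX => ?_⟩
    obtain ⟨Z, hZX, hZc, c, hc⟩ := hM f X hX
    have hpig : ∃ k ∈ (Finset.univ : Finset C), m ≤ (Z.filter (fun x => c x = k)).card := by
      apply Finset.exists_le_card_fiber_of_mul_le_card_of_maps_to
      · intro a _; exact Finset.mem_univ _
      · exact ⟨f ∅, Finset.mem_univ _⟩
      · rw [hZc]; rfl
    obtain ⟨k, _, hk⟩ := hpig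
    obtain ⟨Y, hY, hYc⟩ := Finset.exists_subset_card_eq hk
    refine ⟨Y, ?_, hYc, k, ?_⟩
    · intro y hy
      exact hZX (Finset.mem_of_mem_filter _ (hY hy))
    · intro s hs hsc
      have hne : s.Nonempty := by
        rw [← Finset.card_pos]; omega
      have h1 : s.min' hne ∈ s := Finset.min'_mem _ _
      have h2 := hc s (fun y hy => Finset.mem_of_mem_filter _ (hY (hs hy))) hsc (s.min' hne) h1
        (fun y hy => Finset.min'_le _ _ hy)
      rw [h2]
      have h3 := hY (hs h1)
      rw [Finset.mem_filter] at h3
      exact h3.2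

/-- Finite hypergraph Ramsey theorem, for strictly increasing tuples. -/
theorem ramsey_fun (n : ℕ) (C : Type) [Finite C] (m : ℕ) : ∃ M : ℕ,
    ∀ f : (Fin n → ℕ) → C, ∃ Y ⊆ Finset.range M, Y.card = m ∧ ∃ k : C,
      ∀ g : Fin n → ℕ, StrictMono g → (∀ i, g i ∈ Y) → f g = k := by
  obtain ⟨M, hM⟩ := ramsey_set n C m
  refine ⟨M, fun f => ?_⟩
  obtain ⟨Y, hY, hYc, k, hk⟩ := hM
    (fun s => if h : s.card = n then f (s.orderEmbOfFin h) else f (fun _ => 0))
    (Finset.range M) (by simp)
  refine ⟨Y, hY, hYc, k, fun g hg hgY => ?_⟩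
  have hcard : (Finset.univ.image g).card = n := by
    rw [Finset.card_image_of_injective _ hg.injective]; simp
  have h1 := hk (Finset.univ.image g) (by
    intro y hy
    rw [Finset.mem_image] at hy
    obtain ⟨i, _, rfl⟩ := hy
    exact hgY i) hcard
  simp only [hcard, dite_true] at h1
  rw [← h1]
  congr 1
  exact Finset.orderEmbOfFin_unique hcard (fun x => Finset.mem_image_of_mem _ (Finset.mem_univ x)) hg

/-- Order pattern equality of two pairs of tuples. -/
def SamePat {t : ℕ} (e e' E E' : Fin t → ℕ) : Prop :=
  (∀ a b, e a < e' b ↔ E a < E' b) ∧ (∀ a b, e' b < e a ↔ E' b < E a)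

theorem card_image_eq_of_ker {α : Type} [DecidableEq α] (h h' : α → ℕ)
    (A : Finset α) (hk : ∀ i j, h i = h j ↔ h' i = h' j) :
    (A.image h).card = (A.image h').card := by
  have key : ∀ f g : α → ℕ, (∀ i j, f i = f j → g i = g j) →
      (A.image g).card ≤ (A.image f).card := by
    intro f g hfg
    have hft : Function.FactorsThrough g f := fun i j hij => hfg i j hij
    obtain ⟨u, hu⟩ := (Function.factorsThrough_iff (g := g) (f := f)).mp hft
    rw [hu, ← Finset.image_image]
    exact Finset.card_image_le
  exact le_antisymm (key h' h (fun i j => (hk i j).mpr)) (key h h' (fun i j => (hk i j).mp))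

theorem orderEmb_index (s : Finset ℕ) (n : ℕ) (h : s.card = n) (i : Fin n) :
    (s.filter (fun x => x < s.orderEmbOfFin h i)).card = i.val := by
  have h1 : s.filter (fun x => x < s.orderEmbOfFin h i)
      = (Finset.Iio i).image (s.orderEmbOfFin h) := by
    ext x
    simp only [Finset.mem_filter, Finset.mem_image, Finset.mem_Iio]
    constructor
    · rintro ⟨hx, hlt⟩
      have : x ∈ Set.range (s.orderEmbOfFin h) := by
        rw [Finset.range_orderEmbOfFin]; exact hx
      obtain ⟨j, rfl⟩ := this
      exact ⟨j, (s.orderEmbOfFin h).lt_iff_lt.mp hlt, rfl⟩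
    · rintro ⟨j, hj, rfl⟩
      exact ⟨Finset.orderEmbOfFin_mem _ _ _, (s.orderEmbOfFin h).lt_iff_lt.mpr hj⟩
  rw [h1, Finset.card_image_of_injective _ (s.orderEmbOfFin h).injective, Fin.card_Iio]

/-- Ramsey theorem for pairs of increasing tuples with a common order pattern. -/
theorem ramsey_pairs (t : ℕ) (C : Type) [Finite C] (m : ℕ) : ∃ M : ℕ,
    ∀ f : (Fin t → Fin (M + 1)) → (Fin t → Fin (M + 1)) → C, ∃ H : ℕ → Fin (M + 1),
      (∀ x y, x < y → y < m → H x < H y) ∧
      ∀ e e' E E' : Fin t → ℕ, StrictMono e → StrictMono e' → StrictMono E → StrictMono E' →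
        (∀ a, e a < m) → (∀ a, e' a < m) → (∀ a, E a < m) → (∀ a, E' a < m) →
        SamePat e e' E E' → f (H ∘ e) (H ∘ e') = f (H ∘ E) (H ∘ E') := by
  classical
  obtain ⟨M, hM⟩ := ramsey_fun (2 * t) ((Fin t → Fin (2 * t)) → (Fin t → Fin (2 * t)) → C)
    (m + 2 * t)
  refine ⟨M, fun f => ?_⟩
  obtain ⟨Y, hY, hYc, k, hk⟩ := hM (fun A g1 g2 =>
    f (fun a => Fin.ofNat (M + 1) (A (g1 a))) (fun a => Fin.ofNat (M + 1) (A (g2 a))))
  -- enumeration of Y
  set HY := Y.orderEmbOfFin hYc with hHY
  let H0 : ℕ → ℕ := fun x => if h : x < m + 2 * t then HY ⟨x, h⟩ else 0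
  have H0mem : ∀ x, x < m + 2 * t → H0 x ∈ Y := by
    intro x hx
    simp only [H0, hx, dite_true]
    exact Finset.orderEmbOfFin_mem _ _ _
  have H0lt : ∀ x, x < m + 2 * t → H0 x < M := by
    intro x hx
    have := hY (H0mem x hx)
    simpa using this
  have H0mono : ∀ x y, x < y → y < m + 2 * t → H0 x < H0 y := by
    intro x y hxy hy
    have hx : x < m + 2 * t := by omega
    simp only [H0, hx, hy, dite_true]
    exact HY.lt_iff_lt.mpr (by simpa using hxy)
  refine ⟨fun x => Fin.ofNat (M + 1) (H0 x), ?_, ?_⟩
  · intro x y hxy hy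
    have h1 := H0mono x y hxy (by omega)
    have h2 := H0lt x (by omega)
    have h3 := H0lt y (by omega)
    rw [Fin.lt_def]
    simp only [Fin.ofNat]
    rw [Nat.mod_eq_of_lt (by omega), Nat.mod_eq_of_lt (by omega)]
    exact h1
  · -- the value is determined by the indices
    have main : ∀ e e' : Fin t → ℕ, StrictMono e → StrictMono e' → (∀ a, e a < m) →
        (∀ a, e' a < m) → ∃ g1 g2 : Fin t → Fin (2 * t),
        (∀ a, (g1 a).val = (((Finset.univ.filter
          (fun i : Fin t ⊕ Fin t => Sum.elim e e' i < e a)).image (Sum.elim e e')).card)) ∧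
        (∀ a, (g2 a).val = (((Finset.univ.filter
          (fun i : Fin t ⊕ Fin t => Sum.elim e e' i < e' a)).image (Sum.elim e e')).card)) ∧
        f ((fun x => Fin.ofNat (M + 1) (H0 x)) ∘ e) ((fun x => Fin.ofNat (M + 1) (H0 x)) ∘ e')
          = k g1 g2 := by
      intro e e' he he' hem hem'
      set h : Fin t ⊕ Fin t → ℕ := Sum.elim e e' with hh
      set U : Finset ℕ := Finset.univ.image h with hU
      have hUm : ∀ x ∈ U, x < m := by
        intro x hx
        rw [hU, Finset.mem_image] at hx
        obtain ⟨i, _, rfl⟩ := hx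
        rcases i with a | a
        · exact hem a
        · exact hem' a
      have hUc : U.card ≤ 2 * t := by
        calc U.card ≤ (Finset.univ : Finset (Fin t ⊕ Fin t)).card := Finset.card_image_le
          _ = 2 * t := by simp; omega
      set W : Finset ℕ := U ∪ (Finset.Ico m (m + (2 * t - U.card))) with hW
      have hWc : W.card = 2 * t := by
        rw [hW, Finset.card_union_of_disjoint, Nat.card_Ico]
        · omega
        · rw [Finset.disjoint_left]
          intro x hx hx'
          have := hUm x hx
          rw [Finset.mem_Ico] at hx'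
          omega
      set A := W.orderEmbOfFin hWc with hA
      have hWlt : ∀ x ∈ W, x < m + 2 * t := by
        intro x hx
        rw [hW, Finset.mem_union] at hx
        rcases hx with h1 | h1
        · have := hUm x h1; omega
        · rw [Finset.mem_Ico] at h1; omega
      have hidx : ∀ x ∈ U, ∃ i : Fin (2 * t), A i = x ∧
          i.val = ((Finset.univ.filter (fun i => h i < x)).image h).card := by
        intro x hx
        have hxW : x ∈ Set.range A := by
          rw [hA, Finset.range_orderEmbOfFin]
          exact Finset.mem_union_left _ hx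
        obtain ⟨i, hi⟩ := hxW
        refine ⟨i, hi, ?_⟩
        rw [← orderEmb_index W (2 * t) hWc i]
        congr 1
        ext y
        rw [← hA, hi]
        simp only [Finset.mem_filter, Finset.mem_image, Finset.mem_univ, true_and]
        constructor
        · rintro ⟨hy, hyx⟩
          rw [hW, Finset.mem_union] at hy
          rcases hy with h1 | h1
          · rw [hU, Finset.mem_image] at h1
            obtain ⟨i, _, rfl⟩ := h1
            exact ⟨i, hyx, rfl⟩
          · rw [Finset.mem_Ico] at h1
            have := hUm x hx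
            omega
        · rintro ⟨i, hi1, rfl⟩
          refine ⟨?_, hi1⟩
          rw [hW, Finset.mem_union]
          left
          exact Finset.mem_image_of_mem _ (Finset.mem_univ _)
      have he1 : ∀ a : Fin t, e a ∈ U := fun a =>
        Finset.mem_image.mpr ⟨Sum.inl a, Finset.mem_univ _, rfl⟩
      have he2 : ∀ a : Fin t, e' a ∈ U := fun a =>
        Finset.mem_image.mpr ⟨Sum.inr a, Finset.mem_univ _, rfl⟩
      choose g1 hg1 hg1' using fun a => hidx (e a) (he1 a)
      choose g2 hg2 hg2' using fun a => hidx (e' a) (he2 a)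
      refine ⟨g1, g2, hg1', hg2', ?_⟩
      have hmono : StrictMono (fun i => H0 (A i)) := by
        intro i j hij
        exact H0mono _ _ (A.lt_iff_lt.mpr hij) (hWlt _ (Finset.orderEmbOfFin_mem _ _ _))
      have h5 := hk (fun i => H0 (A i)) hmono
        (fun i => H0mem _ (hWlt _ (Finset.orderEmbOfFin_mem _ _ _)))
      have h6 := congrFun (congrFun h5 g1) g2
      rw [← h6]
      congr 1
      · ext a; simp only [Function.comp]; rw [hg1]
      · ext a; simp only [Function.comp]; rw [hg2]
    intro e e' E E' he he' hE hE' hem hem' hEm hEm' hpat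
    obtain ⟨g1, g2, h1, h2, h3⟩ := main e e' he he' hem hem'
    obtain ⟨G1, G2, H1, H2, H3⟩ := main E E' hE hE' hEm hEm'
    have hlt : ∀ i j : Fin t ⊕ Fin t, Sum.elim e e' i < Sum.elim e e' j ↔
        Sum.elim E E' i < Sum.elim E E' j := by
      rintro (a | a) (b | b)
      · simp [he.lt_iff_lt, hE.lt_iff_lt]
      · exact hpat.1 a b
      · exact hpat.2 b a
      · simp [he'.lt_iff_lt, hE'.lt_iff_lt]
    have heq : ∀ i j : Fin t ⊕ Fin t, Sum.elim e e' i = Sum.elim e e' j ↔
        Sum.elim E E' i = Sum.elim E E' j := by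
      intro i j
      have a1 := hlt i j
      have a2 := hlt j i
      constructor <;> intro h <;> omega
    have hc : ∀ j : Fin t ⊕ Fin t,
        (((Finset.univ.filter (fun i : Fin t ⊕ Fin t => Sum.elim e e' i < Sum.elim e e' j)).image
          (Sum.elim e e')).card) =
        (((Finset.univ.filter (fun i : Fin t ⊕ Fin t => Sum.elim E E' i < Sum.elim E E' j)).image
          (Sum.elim E E')).card) := by
      intro j
      have : (Finset.univ.filter (fun i : Fin t ⊕ Fin t => Sum.elim e e' i < Sum.elim e e' j))
        = (Finset.univ.filter (fun i : Fin t ⊕ Fin t => Sum.elim E E' i < Sum.elim E E' j)) := by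
        ext i
        simp only [Finset.mem_filter, Finset.mem_univ, true_and]
        exact hlt i j
      rw [this]
      exact card_image_eq_of_ker _ _ _ heq
    have e1 : g1 = G1 := by
      ext a
      rw [h1 a, H1 a]
      exact hc (Sum.inl a)
    have e2 : g2 = G2 := by
      ext a
      rw [h2 a, H2 a]
      exact hc (Sum.inr a)
    rw [h3, H3, e1, e2]

end Pool.Agent.Hhelper41.Cover
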