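import Pool.Agent.Hhelper41.Cover.HC

set_option autoImplicit false

namespace Pool.Agent.Hhelper41.Cover

theorem forest2 {V : Type} [Finite V] (l : V → ℕ) (F : V → V → Prop)
    (h1 : ∀ x y, F x y → l x < l y) (h2 : ∀ x y z, F x z → F y z → x = y) :
    ∃ f : V → Bool, ∀ x y, F x y → f x ≠ f y := by
  classical
  have key : ∀ n : ℕ, ∃ f : V → Bool, ∀ x y, F x y → l y < n → f x ≠ f y := by
    intro n
    induction n with
    | zero => exact ⟨fun _ => true, fun x y _ h => absurd h (Nat.not_lt_zero _)⟩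
    | succ n ih =>
      obtain ⟨f, hf⟩ := ih
      refine ⟨fun v => if l v = n then (if h : ∃ x, F x v then !(f h.choose) else true) else f v,
        ?_⟩
      intro x y hxy hy
      have hx := h1 x y hxy
      have hxn : l x ≠ n := by omega
      simp only [hxn, if_false]
      by_cases hyn : l y = n
      · have hex : ∃ x, F x y := ⟨x, hxy⟩
        simp only [hyn, if_true, hex, dite_true]
        have : hex.choose = x := h2 _ _ _ hex.choose_spec hxy
        rw [this]
        cases f x <;> simp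
      · simp only [hyn, if_false]
        exact hf x y hxy (by omega)
  obtain ⟨R, hR⟩ : ∃ R, ∀ v, l v < R := by
    obtain ⟨R, hR⟩ := (Set.finite_range l).bddAbove
    exact ⟨R + 1, fun v => Nat.lt_succ_of_le (hR ⟨v, rfl⟩)⟩
  obtain ⟨f, hf⟩ := key R
  exact ⟨f, fun x y hxy => hf x y hxy (hR y)⟩

theorem forest2' {V : Type} [Finite V] (l : V → ℕ) (F : V → V → Prop)
    (h1 : ∀ x y, F x y → l x < l y) (h2 : ∀ x y z, F z x → F z y → x = y) :
    ∃ f : V → Bool, ∀ x y, F x y → f x ≠ f y := by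
  obtain ⟨R, hR⟩ : ∃ R, ∀ v, l v < R := by
    obtain ⟨R, hR⟩ := (Set.finite_range l).bddAbove
    exact ⟨R + 1, fun v => Nat.lt_succ_of_le (hR ⟨v, rfl⟩)⟩
  obtain ⟨f, hf⟩ := forest2 (fun v => R - l v) (fun x y => F y x)
    (fun x y hxy => by
      have := h1 _ _ hxy
      have := hR x
      have := hR y
      omega) (fun x y z hx hy => h2 x y z hx hy)
  exact ⟨f, fun x y hxy => (hf y x hxy).symm⟩

theorem base0 {d : ℕ} (j i₀ : Fin d) (hij : i₀ ≠ j) (G : Finset (Fin d))
    (hG : ∀ i, i ∈ G ↔ i ≠ j) (N r : ℕ) :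
    ∃ (V : Type) (_ : Finite V) (rk : Fin d → V → ℕ), (∀ i, Function.Injective (rk i)) ∧
      ¬ Col rk 0 G N r (Cov rk) := by
  classical
  obtain ⟨V, hV, l1, l2, i1, i2, h⟩ := hcd j i₀ hij (Fintype.card (Fin N × (Fin r → Bool)))
  set rk : Fin d → V → ℕ := fun i => if i = j then l2 else l1 with hrk
  refine ⟨V, hV, rk, ?_, ?_⟩
  · intro i
    simp only [hrk]
    split_ifs
    · exact i2
    · exact i1
  rintro ⟨χ, φ, hχ, hφ, hS⟩
  have hi0 : rk i₀ = l1 := by simp only [hrk, hij, if_false]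
  have two : ∀ c b : ℕ, ∃ f : V → Bool, ∀ x y,
      (Cov rk x y ∧ χ x = c ∧ χ y = c ∧ φ x y = b) → f x ≠ f y := by
    intro c b
    obtain ⟨M, s, _, _, hM⟩ := hS c b
    have hmono : ∀ x y, (Cov rk x y ∧ χ x = c ∧ χ y = c ∧ φ x y = b) → l1 x < l1 y := by
      intro x y hxy
      have := hxy.1.1 i₀
      rwa [hi0] at this
    have hGl : ∀ x y : V, l1 x < l1 y → ∀ i ∈ G, rk i x < rk i y := by
      intro x y hxy i hi
      have : i ≠ j := (hG i).mp hi
      simp only [hrk, this, if_false]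
      exact hxy
    cases s with
    | true =>
      refine forest2 l1 _ hmono ?_
      intro x y z hx hy
      by_contra hne
      rcases lt_or_gt_of_ne (fun h => hne (i1 h) : l1 x ≠ l1 y) with hlt | hlt
      · exact hM x y z (by simpa [Edg] using hx) (by simpa [Edg] using hy)
          (fun m => m.elim0) (hGl x y hlt)
      · exact hM y x z (by simpa [Edg] using hy) (by simpa [Edg] using hx)
          (fun m => m.elim0) (hGl y x hlt)
    | false =>
      refine forest2' l1 _ hmono ?_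
      intro x y z hx hy
      by_contra hne
      rcases lt_or_gt_of_ne (fun h => hne (i1 h) : l1 x ≠ l1 y) with hlt | hlt
      · exact hM x y z (by simpa [Edg] using hx) (by simpa [Edg] using hy)
          (fun m => m.elim0) (hGl x y hlt)
      · exact hM y x z (by simpa [Edg] using hy) (by simpa [Edg] using hx)
          (fun m => m.elim0) (hGl y x hlt)
  choose f hf using two
  obtain ⟨x, y, hxy, hfxy⟩ := h
    (fun v => (Fintype.equivFin (Fin N × (Fin r → Bool))
      (⟨χ v, hχ v⟩, fun b => f (χ v) b v)).val) (fun v => Fin.is_lt _)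
  have h1 := (Fintype.equivFin (Fin N × (Fin r → Bool))).injective (Fin.ext hfxy)
  have h2 : χ x = χ y := by
    have := congrArg (fun p => p.1.val) h1
    exact this
  have h3 := hφ x y hxy h2
  have h4 : f (χ x) (φ x y) x = f (χ y) (φ x y) y := by
    have := congrArg (fun p => p.2 ⟨φ x y, h3⟩) h1
    exact this
  rw [← h2] at h4
  exact hf (χ x) (φ x y) x y ⟨hxy, rfl, h2.symm, rfl⟩ h4

/-- Base `r = 0`. -/
theorem baser {d : ℕ} (j i₀ : Fin d) (hij : i₀ ≠ j) (k : ℕ) (G : Finset (Fin d)) (N : ℕ) :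
    ∃ (V : Type) (_ : Finite V) (rk : Fin d → V → ℕ), (∀ i, Function.Injective (rk i)) ∧
      ¬ Col rk k G N 0 (Cov rk) := by
  classical
  obtain ⟨V, hV, l1, l2, i1, i2, h⟩ := hcd j i₀ hij N
  refine ⟨V, hV, fun i => if i = j then l2 else l1, ?_, ?_⟩
  · intro i
    beta_reduce
    split_ifs
    · exact i2
    · exact i1
  rintro ⟨χ, φ, hχ, hφ, _⟩
  obtain ⟨x, y, hxy, hfxy⟩ := h χ hχ
  exact absurd (hφ x y hxy hfxy) (Nat.not_lt_zero _)

end Pool.Agent.Hhelper41.Cover
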