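import Mathlib

set_option autoImplicit false

namespace Pool.Agent.Hhelper41.Cover

/-- Strict order given by `d` rankings. -/
def Lt' {V : Type} {d : ℕ} (rk : Fin d → V → ℕ) (x y : V) : Prop := ∀ i, rk i x < rk i y

/-- Cover relation of the order given by `d` rankings. -/
def Cov {V : Type} {d : ℕ} (rk : Fin d → V → ℕ) (x y : V) : Prop :=
  Lt' rk x y ∧ ∀ z, Lt' rk x z → ¬ Lt' rk z y

/-- `E F s x z`: an `F`-edge between `x` and `z`, with `z` on top if `s = true`, and `z` at the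
bottom if `s = false`. -/
def Edg {V : Type} (F : V → V → Prop) (s : Bool) (x z : V) : Prop :=
  if s then F x z else F z x

/-- A set `F` of edges is simple if `k` linear orders, increasing along `F`, have the upper
(`s = true`) or the lower (`s = false`) property. -/
def Simple {V : Type} {d : ℕ} (rk : Fin d → V → ℕ) (k : ℕ) (G : Finset (Fin d))
    (F : V → V → Prop) : Prop :=
  ∃ (M : Fin k → V → ℕ) (s : Bool), (∀ m, Function.Injective (M m)) ∧
    (∀ m x y, F x y → M m x < M m y) ∧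
    ∀ x y z, Edg F s x z → Edg F s y z → (∀ m, M m x < M m y) → (∀ i ∈ G, rk i x < rk i y) → False

/-- `Col rk k G N r Θ`: colour vertices with `N` colours and the monochromatic edges of `Θ` with
`r` colours so that all the classes are simple. -/
def Col {V : Type} {d : ℕ} (rk : Fin d → V → ℕ) (k : ℕ) (G : Finset (Fin d)) (N r : ℕ)
    (Θ : V → V → Prop) : Prop :=
  ∃ (χ : V → ℕ) (φ : V → V → ℕ), (∀ v, χ v < N) ∧ (∀ x y, Θ x y → χ x = χ y → φ x y < r) ∧
   ∀ c b, Simple rk k G (fun x y => Θ x y ∧ χ x = c ∧ χ y = c ∧ φ x y = b)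

section
variable {V : Type} {d : ℕ} {rk : Fin d → V → ℕ} {k : ℕ} {G : Finset (Fin d)}

theorem Edg.mono {F F' : V → V → Prop} (h : ∀ x y, F x y → F' x y) {s : Bool} {x z : V}
    (he : Edg F s x z) : Edg F' s x z := by
  unfold Edg at *
  split_ifs at * <;> exact h _ _ he

theorem Edg.map {V W : Type} {F : V → V → Prop} {F' : W → W → Prop} (f : V → W)
    (h : ∀ x y, F x y → F' (f x) (f y)) {s : Bool} {x z : V}
    (he : Edg F s x z) : Edg F' s (f x) (f z) := by
  unfold Edg at *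
  split_ifs at * <;> exact h _ _ he

theorem Edg.left {F : V → V → Prop} {p : V → Prop} (h : ∀ x y, F x y → p x ∧ p y) {s : Bool}
    {x z : V} (he : Edg F s x z) : p x := by
  unfold Edg at *
  split_ifs at *
  · exact (h _ _ he).1
  · exact (h _ _ he).2

theorem Simple.mono {F F' : V → V → Prop} (h : ∀ x y, F x y → F' x y)
    (hF : Simple rk k G F') : Simple rk k G F := by
  obtain ⟨M, s, h1, h2, h3⟩ := hF
  exact ⟨M, s, h1, fun m x y hxy => h2 m x y (h _ _ hxy),
    fun x y z hx hy => h3 x y z (hx.mono h) (hy.mono h)⟩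

theorem simple_empty [Finite V] {F : V → V → Prop} (h : ∀ x y, ¬ F x y) : Simple rk k G F := by
  obtain ⟨f, hf⟩ := Countable.exists_injective_nat V
  refine ⟨fun _ => f, true, fun _ => hf, fun m x y hxy => absurd hxy (h x y), ?_⟩
  intro x y z hx
  simp only [Edg, if_true] at hx
  exact absurd hx (h _ _)

theorem Col.mono {N N' r r' : ℕ} {Θ Θ' : V → V → Prop} (h : ∀ x y, Θ x y → Θ' x y)
    (hN : N ≤ N') (hr : r ≤ r') (hC : Col rk k G N r Θ') : Col rk k G N' r' Θ := by
  obtain ⟨χ, φ, h1, h2, h3⟩ := hC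
  refine ⟨χ, φ, fun v => lt_of_lt_of_le (h1 v) hN,
    fun x y hxy hc => lt_of_lt_of_le (h2 x y (h _ _ hxy) hc) hr, fun c b => ?_⟩
  exact (h3 c b).mono (fun x y hxy => ⟨h _ _ hxy.1, hxy.2⟩)

theorem col_empty [Finite V] {N r : ℕ} {Θ : V → V → Prop} (hN : 0 < N) (h : ∀ x y, ¬ Θ x y) :
    Col rk k G N r Θ :=
  ⟨fun _ => 0, fun _ _ => 0, fun _ => hN, fun x y hxy => absurd hxy (h x y),
    fun _ _ => simple_empty (fun x y hxy => h x y hxy.1)⟩

theorem Col.union {N₁ N₂ r₁ r₂ : ℕ} {Θ₁ Θ₂ Θ : V → V → Prop}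
    (hΘ : ∀ x y, Θ x y → Θ₁ x y ∨ Θ₂ x y)
    (h₁ : Col rk k G N₁ r₁ Θ₁) (h₂ : Col rk k G N₂ r₂ Θ₂) :
    Col rk k G (N₁ * N₂) (r₁ + r₂) Θ := by
  classical
  obtain ⟨χ₁, φ₁, a1, a2, a3⟩ := h₁
  obtain ⟨χ₂, φ₂, b1, b2, b3⟩ := h₂
  have key : ∀ v, (χ₁ v + N₁ * χ₂ v) % N₁ = χ₁ v ∧ (χ₁ v + N₁ * χ₂ v) / N₁ = χ₂ v := by
    intro v
    have h0 : 0 < N₁ := lt_of_le_of_lt (Nat.zero_le _) (a1 v)
    constructor
    · rw [Nat.add_mul_mod_self_left, Nat.mod_eq_of_lt (a1 v)]
    · rw [Nat.add_mul_div_left _ _ h0, Nat.div_eq_of_lt (a1 v), zero_add]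
  refine ⟨fun v => χ₁ v + N₁ * χ₂ v,
    fun x y => if Θ₁ x y ∧ χ₁ x = χ₁ y then φ₁ x y else r₁ + φ₂ x y, ?_, ?_, ?_⟩
  · intro v
    have h1 := a1 v
    have h2 := b1 v
    calc χ₁ v + N₁ * χ₂ v < N₁ + N₁ * χ₂ v := by omega
      _ = N₁ * (χ₂ v + 1) := by ring
      _ ≤ N₁ * N₂ := Nat.mul_le_mul_left _ h2
  · intro x y hxy hc
    have e1 : χ₁ x = χ₁ y := by rw [← (key x).1, ← (key y).1]; exact congrArg (· % N₁) hc
    have e2 : χ₂ x = χ₂ y := by rw [← (key x).2, ← (key y).2]; exact congrArg (· / N₁) hc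
    simp only [e1, and_true]
    split_ifs with h
    · have := a2 x y h e1; omega
    · rcases hΘ x y hxy with h' | h'
      · exact absurd h' h
      · have := b2 x y h' e2; omega
  · intro c b
    by_cases hb : b < r₁
    · refine (a3 (c % N₁) b).mono ?_
      rintro x y ⟨hxy, hx, hy, hφ⟩
      beta_reduce at hx hy hφ
      have ex : χ₁ x = c % N₁ := by rw [← hx]; exact (key x).1.symm
      have ey : χ₁ y = c % N₁ := by rw [← hy]; exact (key y).1.symm
      by_cases h : Θ₁ x y ∧ χ₁ x = χ₁ y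
      · simp only [h, and_self, if_true] at hφ
        exact ⟨h.1, ex, ey, hφ⟩
      · rw [if_neg h] at hφ
        omega
    · refine (b3 (c / N₁) (b - r₁)).mono ?_
      rintro x y ⟨hxy, hx, hy, hφ⟩
      beta_reduce at hx hy hφ
      have ex : χ₂ x = c / N₁ := by rw [← hx]; exact (key x).2.symm
      have ey : χ₂ y = c / N₁ := by rw [← hy]; exact (key y).2.symm
      have ex' : χ₁ x = c % N₁ := by rw [← hx]; exact (key x).1.symm
      have ey' : χ₁ y = c % N₁ := by rw [← hy]; exact (key y).1.symm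
      by_cases h : Θ₁ x y ∧ χ₁ x = χ₁ y
      · rw [if_pos h] at hφ
        have := a2 x y h.1 h.2
        omega
      · rw [if_neg h] at hφ
        rcases hΘ x y hxy with h' | h'
        · exact absurd ⟨h', ex'.trans ey'.symm⟩ h
        · exact ⟨h', ex, ey, by omega⟩

/-- Edges crossing a vertex partition into `s` parts. -/
theorem col_crossing [Finite V] {s : ℕ} {Θ : V → V → Prop} (χ : V → ℕ) (hχ : ∀ v, χ v < s)
    (h : ∀ x y, Θ x y → χ x ≠ χ y) : Col rk k G s 0 Θ := by
  refine ⟨χ, fun _ _ => 0, hχ, fun x y hxy hc => absurd hc (h x y hxy), fun c b => ?_⟩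
  apply simple_empty
  rintro x y ⟨h1, h2, h3, _⟩
  exact h x y h1 (h2.trans h3.symm)

theorem col_crossing2 [Finite V] {Θ : V → V → Prop} (p : V → Prop)
    (h : ∀ x y, Θ x y → ¬ (p x ↔ p y)) : Col rk k G 2 0 Θ := by
  classical
  refine col_crossing (fun v => if p v then 1 else 0) (fun v => ?_) ?_
  · split_ifs <;> omega
  · intro x y hxy
    have := h x y hxy
    by_cases h1 : p x <;> by_cases h2 : p y <;> simp [h1, h2] at this ⊢

theorem col_biUnion [Finite V] {ι : Type} [DecidableEq ι] (N₀ r₀ : ℕ) (s : Finset ι) :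
    ∀ (Θ : ι → V → V → Prop) (_ : ∀ i ∈ s, Col rk k G N₀ r₀ (Θ i)),
      Col rk k G (N₀ ^ s.card) (r₀ * s.card) (fun x y => ∃ i ∈ s, Θ i x y) := by
  induction s using Finset.induction_on with
  | empty =>
    intro Θ _
    apply col_empty
    · simp
    · intro x y h
      simp at h
  | insert a s ha ih =>
    intro Θ hΘ
    have h1 := ih Θ (fun i hi => hΘ i (Finset.mem_insert_of_mem hi))
    have h2 := hΘ a (Finset.mem_insert_self _ _)
    have h3 := Col.union (Θ := fun x y => ∃ i ∈ insert a s, Θ i x y) ?_ h1 h2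
    · refine h3.mono (fun _ _ h => h) ?_ ?_
      · rw [Finset.card_insert_of_notMem ha, pow_succ]
      · rw [Finset.card_insert_of_notMem ha, mul_add, mul_one]
    · rintro x y ⟨i, hi, hxy⟩
      rcases Finset.mem_insert.mp hi with h | h
      · right; rw [← h]; exact hxy
      · left; exact ⟨i, h, hxy⟩

end

/-- Lexicographic keys. -/
abbrev K4 : Type := ℤ ×ₗ ℤ ×ₗ ℤ ×ₗ ℤ

/-- Lexicographic keys. -/
def mk4 (a b c d : ℤ) : K4 := toLex (a, toLex (b, toLex (c, d)))

theorem mk4_lt {a b c d a' b' c' d' : ℤ} : mk4 a b c d < mk4 a' b' c' d' ↔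
    a < a' ∨ a = a' ∧ (b < b' ∨ b = b' ∧ (c < c' ∨ c = c' ∧ d < d')) := by
  unfold mk4
  simp [Prod.Lex.toLex_lt_toLex]

theorem mk4_inj {a b c d a' b' c' d' : ℤ} : mk4 a b c d = mk4 a' b' c' d' ↔
    a = a' ∧ b = b' ∧ c = c' ∧ d = d' := by
  unfold mk4
  simp

/-- Rank function from a key in a linear order. -/
theorem exists_rank {V K : Type} [Finite V] [LinearOrder K] (key : V → K)
    (hinj : Function.Injective key) :
    ∃ rk : V → ℕ, Function.Injective rk ∧ ∀ x y, rk x < rk y ↔ key x < key y := by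
  classical
  have := Fintype.ofFinite V
  let rk : V → ℕ := fun x => (Finset.univ.filter (fun y => key y < key x)).card
  have h1 : ∀ x y, key x < key y → rk x < rk y := by
    intro x y hxy
    apply Finset.card_lt_card
    rw [Finset.ssubset_iff_of_subset]
    · exact ⟨x, by simp [hxy], by simp⟩
    · intro z hz
      simp only [Finset.mem_filter, Finset.mem_univ, true_and] at hz ⊢
      exact hz.trans hxy
  have h2 : ∀ x y, rk x < rk y ↔ key x < key y := by
    intro x y
    constructor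
    · intro h
      by_contra hc
      rcases lt_or_eq_of_le (not_lt.mp hc) with h' | h'
      · have := h1 _ _ h'
        omega
      · have := hinj h'
        rw [this] at h
        exact absurd h (lt_irrefl _)
    · exact h1 x y
  refine ⟨rk, ?_, h2⟩
  intro x y hxy
  by_contra hne
  rcases lt_or_gt_of_ne (fun h => hne (hinj h) : key x ≠ key y) with h | h
  · have := h1 _ _ h
    omega
  · have := h1 _ _ h
    omega

/-- A finite set with an injective ranking is order isomorphic to `Fin n`. -/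
theorem exists_equiv_fin {V : Type} [Finite V] (f : V → ℕ) (hf : Function.Injective f) :
    ∃ (n : ℕ) (e : Fin n ≃ V), ∀ a b, f (e a) < f (e b) ↔ a < b := by
  classical
  have := Fintype.ofFinite V
  let _ := LinearOrder.lift' f hf
  let e := Fintype.orderIsoFinOfCardEq V rfl
  refine ⟨Fintype.card V, e.toEquiv, fun a b => ?_⟩
  exact e.lt_iff_lt

/-- Transport of `Col` along an equivalence. -/
theorem Col.transport {V W : Type} {d : ℕ} {rk : Fin d → V → ℕ} {k : ℕ} {G : Finset (Fin d)}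
    {N r : ℕ} (e : W ≃ V) (h : Col (fun i w => rk i (e w)) k G N r (Cov (fun i w => rk i (e w)))) :
    Col rk k G N r (Cov rk) := by
  obtain ⟨χ, φ, h1, h2, h3⟩ := h
  have hcov : ∀ x y, Cov rk x y → Cov (fun i w => rk i (e w)) (e.symm x) (e.symm y) := by
    intro x y hxy
    refine ⟨fun i => by simpa using hxy.1 i, fun z hz hz' => ?_⟩
    exact hxy.2 (e z) (fun i => by simpa using hz i) (fun i => by simpa using hz' i)
  refine ⟨fun v => χ (e.symm v), fun x y => φ (e.symm x) (e.symm y), fun v => h1 _,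
    fun x y hxy hc => h2 _ _ (hcov x y hxy) hc, fun c b => ?_⟩
  obtain ⟨M, s, m1, m2, m3⟩ := h3 c b
  refine ⟨fun m v => M m (e.symm v), s, fun m => (m1 m).comp e.symm.injective,
    fun m x y hxy => m2 m _ _ ⟨hcov _ _ hxy.1, hxy.2⟩, ?_⟩
  intro x y z hx hy hM hG
  refine m3 (e.symm x) (e.symm y) (e.symm z) ?_ ?_ hM (fun i hi => by simpa using hG i hi)
  · unfold Edg at *
    split_ifs at * with hs
    · exact ⟨hcov _ _ hx.1, hx.2⟩
    · exact ⟨hcov _ _ hx.1, hx.2⟩
  · unfold Edg at *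
    split_ifs at * with hs
    · exact ⟨hcov _ _ hy.1, hy.2⟩
    · exact ⟨hcov _ _ hy.1, hy.2⟩

end Pool.Agent.Hhelper41.Cover
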