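import Pool.Agent.Hhelper41.Cover.Basic

set_option autoImplicit false

namespace Pool.Agent.Hhelper41.Cover

/-- The main construction. -/
theorem constr {d t M : ℕ} {B : Type} [Finite B] (rkB : Fin d → B → ℕ)
    (injB : ∀ i, Function.Injective (rkB i)) (rkT : Fin d → Fin t → ℕ)
    (injT : ∀ i, Function.Injective (rkT i)) (j i₀ : Fin d) (hij : i₀ ≠ j)
    (hT : ∀ a b, rkT j a < rkT j b ↔ a < b) :
    ∃ rkP : Fin d → (B × (Fin t → Fin M) × Fin M) → ℕ, (∀ i, Function.Injective (rkP i)) ∧
      (∀ u v e e' x, Cov rkB u v → Cov rkP (u, e, x) (v, e', x)) ∧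
      (∀ v e a b, StrictMono e → Cov rkT a b → Cov rkP (v, e, e a) (v, e, e b)) ∧
      (∀ i, i ≠ j → ∀ u v e e' x x', rkB i u < rkB i v → rkP i (u, e, x) < rkP i (v, e', x')) ∧
      (∀ i, i ≠ j → ∀ v e a b, StrictMono e → rkT i a < rkT i b →
        rkP i (v, e, e a) < rkP i (v, e, e b)) := by
  classical
  obtain ⟨code, hcode⟩ := Countable.exists_injective_nat (Fin t → Fin M)
  let W := B × (Fin t → Fin M) × Fin M
  let flag : (Fin t → Fin M) → Fin M → ℤ := fun e x => if ∃ c, e c = x then 0 else 1
  let val : Fin d → (Fin t → Fin M) → Fin M → ℤ := fun i e x =>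
    if h : ∃ c, e c = x then (rkT i h.choose : ℤ) else (x.val : ℤ)
  let keyI : Fin d → W → K4 := fun i w =>
    mk4 (rkB i w.1 : ℤ) (code w.2.1 : ℤ) (flag w.2.1 w.2.2) (val i w.2.1 w.2.2)
  let keyJ : W → K4 := fun w => mk4 (w.2.2.val : ℤ) (rkB j w.1 : ℤ) (-(code w.2.1 : ℤ)) 0
  have flag_e : ∀ (e : Fin t → Fin M) c, flag e (e c) = 0 := by
    intro e c
    have : ∃ c', e c' = e c := ⟨c, rfl⟩
    simp only [flag, this, if_true]
  have val_e : ∀ i (e : Fin t → Fin M) c, StrictMono e → val i e (e c) = rkT i c := by
    intro i e c he
    have h : ∃ c', e c' = e c := ⟨c, rfl⟩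
    simp only [val, h, dite_true]
    have := he.injective h.choose_spec
    rw [this]
  have hkI : ∀ i, Function.Injective (keyI i) := by
    rintro i ⟨v, e, x⟩ ⟨v', e', x'⟩ h
    simp only [keyI, mk4_inj] at h
    obtain ⟨h1, h2, h3, h4⟩ := h
    have hv : v = v' := injB i (by omega)
    have he : e = e' := hcode (by omega)
    subst hv
    subst he
    have hx : x = x' := by
      by_cases hx : ∃ c, e c = x
      · by_cases hx' : ∃ c, e c = x'
        · simp only [val, hx, hx', dite_true] at h4
          have h5 : hx.choose = hx'.choose := injT i (by omega)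
          rw [← hx.choose_spec, ← hx'.choose_spec, h5]
        · simp only [flag, hx, hx', if_true, if_false] at h3
          omega
      · by_cases hx' : ∃ c, e c = x'
        · simp only [flag, hx, hx', if_true, if_false] at h3
          omega
        · simp only [val, hx, hx', dite_false] at h4
          ext
          omega
    rw [hx]
  have hkJ : Function.Injective keyJ := by
    rintro ⟨v, e, x⟩ ⟨v', e', x'⟩ h
    simp only [keyJ, mk4_inj] at h
    obtain ⟨h1, h2, h3, _⟩ := h
    have hv : v = v' := injB j (by omega)
    have he : e = e' := hcode (by omega)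
    have hx : x = x' := by ext; omega
    rw [hv, he, hx]
  choose rI rIi rIk using fun i => exists_rank (keyI i) (hkI i)
  obtain ⟨rJ, rJi, rJk⟩ := exists_rank keyJ hkJ
  have ltP : ∀ x y : W, Lt' (fun i => if i = j then rJ else rI i) x y ↔
      ((∀ i, i ≠ j → keyI i x < keyI i y) ∧ keyJ x < keyJ y) := by
    intro x y
    constructor
    · intro h
      refine ⟨fun i hi => ?_, ?_⟩
      · have := h i
        simp only [hi, if_false] at this
        exact (rIk i x y).mp this
      · have := h j
        simp only [if_true] at this
        exact (rJk x y).mp this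
    · rintro ⟨h1, h2⟩ i
      by_cases hi : i = j
      · simp only [hi, if_true]
        exact (rJk x y).mpr h2
      · simp only [hi, if_false]
        exact (rIk i x y).mpr (h1 i hi)
  refine ⟨fun i => if i = j then rJ else rI i, ?_, ?_, ?_, ?_, ?_⟩
  · intro i
    beta_reduce
    split_ifs
    · exact rJi
    · exact rIi i
  · -- q-covers
    intro u v e e' x huv
    refine ⟨?_, ?_⟩
    · rw [ltP]
      refine ⟨fun i hi => ?_, ?_⟩
      · simp only [keyI, mk4_lt]
        left
        exact_mod_cast huv.1 i
      · simp only [keyJ, mk4_lt]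
        right
        refine ⟨trivial, ?_⟩
        left
        exact_mod_cast huv.1 j
    · rintro ⟨w, e'', y⟩ h1 h2
      rw [ltP] at h1 h2
      obtain ⟨h1a, h1b⟩ := h1
      obtain ⟨h2a, h2b⟩ := h2
      simp only [keyI, keyJ, mk4_lt] at h1a h1b h2a h2b
      have hy : y = x := by ext; omega
      subst hy
      -- u < w
      have hle1 : ∀ i, rkB i u ≤ rkB i w := by
        intro i
        by_cases hi : i = j
        · subst hi; omega
        · have := h1a i hi; omega
      have hle2 : ∀ i, rkB i w ≤ rkB i v := by
        intro i
        by_cases hi : i = j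
        · subst hi; omega
        · have := h2a i hi; omega
      have hne1 : u ≠ w := by
        intro h
        subst h
        have h3 := h1a i₀ hij
        have he : e = e'' := hcode (by omega)
        subst he
        omega
      have hne2 : w ≠ v := by
        intro h
        subst h
        have h3 := h2a i₀ hij
        have he : e'' = e' := hcode (by omega)
        subst he
        omega
      exact huv.2 w (fun i => lt_of_le_of_ne (hle1 i) (fun h => hne1 (injB i h)))
        (fun i => lt_of_le_of_ne (hle2 i) (fun h => hne2 (injB i h)))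
  · -- x-covers
    intro v e a b he hab
    have hlt : a < b := (hT a b).mp (hab.1 j)
    have helt := he hlt
    rw [Fin.lt_def] at helt
    refine ⟨?_, ?_⟩
    · rw [ltP]
      refine ⟨fun i hi => ?_, ?_⟩
      · simp only [keyI, mk4_lt, flag_e, val_e i e _ he]
        right
        refine ⟨trivial, Or.inr ⟨trivial, Or.inr ⟨trivial, ?_⟩⟩⟩
        exact_mod_cast hab.1 i
      · simp only [keyJ, mk4_lt]
        left
        exact_mod_cast helt
    · rintro ⟨w, e'', y⟩ h1 h2
      rw [ltP] at h1 h2
      obtain ⟨h1a, h1b⟩ := h1
      obtain ⟨h2a, h2b⟩ := h2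
      have hw : w = v := by
        have h3 := h1a i₀ hij
        have h4 := h2a i₀ hij
        simp only [keyI, mk4_lt] at h3 h4
        exact injB i₀ (by omega)
      subst hw
      have he'' : e'' = e := by
        have h3 := h1a i₀ hij
        have h4 := h2a i₀ hij
        simp only [keyI, mk4_lt] at h3 h4
        exact hcode (by omega)
      subst he''
      have hy : ∃ c, e'' c = y := by
        by_contra hy
        have h4 := h2a i₀ hij
        simp only [keyI, mk4_lt, flag_e] at h4
        simp only [flag, hy, if_false] at h4
        omega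
      obtain ⟨c, rfl⟩ := hy
      simp only [keyJ, mk4_lt] at h1b h2b
      have h5 : e'' a < e'' c := by rw [Fin.lt_def]; omega
      have h6 : e'' c < e'' b := by rw [Fin.lt_def]; omega
      have h7 : a < c := he.lt_iff_lt.mp h5
      have h8 : c < b := he.lt_iff_lt.mp h6
      refine hab.2 c (fun i => ?_) (fun i => ?_)
      · by_cases hi : i = j
        · subst hi; exact (hT a c).mpr h7
        · have := h1a i hi
          simp only [keyI, mk4_lt, flag_e, val_e i e'' _ he] at this
          omega
      · by_cases hi : i = j
        · subst hi; exact (hT c b).mpr h8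
        · have := h2a i hi
          simp only [keyI, mk4_lt, flag_e, val_e i e'' _ he] at this
          omega
  · intro i hi u v e e' x x' huv
    simp only [hi, if_false]
    rw [rIk]
    simp only [keyI, mk4_lt]
    left
    exact_mod_cast huv
  · intro i hi v e a b he hab
    simp only [hi, if_false]
    rw [rIk]
    simp only [keyI, mk4_lt, flag_e, val_e i e _ he]
    right
    refine ⟨trivial, Or.inr ⟨trivial, Or.inr ⟨trivial, ?_⟩⟩⟩
    exact_mod_cast hab

end Pool.Agent.Hhelper41.Cover
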