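import Pool.Agent.Hhelper41.Cover.Basic

set_option autoImplicit false

namespace Pool.Agent.Hhelper41.Cover

/-- Cover relation of the order given by two rankings. -/
def Cov2 {V : Type} (l1 l2 : V → ℕ) (x y : V) : Prop :=
  (l1 x < l1 y ∧ l2 x < l2 y) ∧ ∀ z, (l1 x < l1 z ∧ l2 x < l2 z) → ¬ (l1 z < l1 y ∧ l2 z < l2 y)

/-- Two-dimensional posets with cover graph of large chromatic number. -/
theorem hc (N : ℕ) : ∃ (V : Type) (_ : Finite V) (l1 l2 : V → ℕ), Function.Injective l1 ∧
    Function.Injective l2 ∧ ∀ C : Finset ℕ, C.card ≤ N → ∀ f : V → ℕ, (∀ v, f v ∈ C) →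
      ∃ x y, Cov2 l1 l2 x y ∧ f x = f y := by
  classical
  induction N with
  | zero =>
    refine ⟨Unit, inferInstance, fun _ => 0, fun _ => 0, fun _ _ _ => rfl, fun _ _ _ => rfl, ?_⟩
    intro C hC f hf
    have : C = ∅ := Finset.card_eq_zero.mp (Nat.le_zero.mp hC)
    have h := hf ()
    rw [this] at h
    simp at h
  | succ N ih =>
    obtain ⟨V, hV, l1, l2, i1, i2, hcol⟩ := ih
    obtain ⟨n, eq, heq⟩ := exists_equiv_fin l1 i1
    set M := (N + 1) * n + 1 with hM
    let W := Fin M ⊕ ((Fin n → Fin M) × Fin n)
    obtain ⟨code, hcode⟩ := Countable.exists_injective_nat (Fin n → Fin M)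
    let key1 : W → K4 := fun w => match w with
      | Sum.inl x => mk4 (x.val : ℤ) 0 0 0
      | Sum.inr (e, c) => mk4 ((e c).val : ℤ) 1 (-(code e : ℤ)) (c.val : ℤ)
    let key2 : W → K4 := fun w => match w with
      | Sum.inl x => mk4 0 (x.val : ℤ) 0 0
      | Sum.inr (e, c) => mk4 1 (code e : ℤ) (l2 (eq c) : ℤ) 0
    have hk1 : Function.Injective key1 := by
      rintro (x | ⟨e, c⟩) (x' | ⟨e', c'⟩) h
      · simp only [key1, mk4_inj] at h
        congr 1
        ext
        omega
      · simp only [key1, mk4_inj] at h
        omega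
      · simp only [key1, mk4_inj] at h
        omega
      · simp only [key1, mk4_inj] at h
        have h1 : e = e' := hcode (by omega)
        have h2 : c = c' := by ext; omega
        rw [h1, h2]
    have hk2 : Function.Injective key2 := by
      rintro (x | ⟨e, c⟩) (x' | ⟨e', c'⟩) h
      · simp only [key2, mk4_inj] at h
        congr 1
        ext
        omega
      · simp only [key2, mk4_inj] at h
        omega
      · simp only [key2, mk4_inj] at h
        omega
      · simp only [key2, mk4_inj] at h
        have h1 : e = e' := hcode (by omega)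
        have h2 : l2 (eq c) = l2 (eq c') := by omega
        have h3 : c = c' := eq.injective (i2 h2)
        rw [h1, h3]
    obtain ⟨r1, r1i, r1k⟩ := exists_rank key1 hk1
    obtain ⟨r2, r2i, r2k⟩ := exists_rank key2 hk2
    -- base to copy covers
    have cov1 : ∀ (e : Fin n → Fin M) (c : Fin n), StrictMono e →
        Cov2 r1 r2 (Sum.inl (e c) : W) (Sum.inr (e, c) : W) := by
      intro e c he
      refine ⟨?_, ?_⟩
      · rw [r1k, r2k]
        simp only [key1, key2, mk4_lt, true_and]
        omega
      · intro z hz hz'
        rw [r1k, r2k] at hz hz'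
        rcases z with y | ⟨e', c'⟩
        · simp only [key1, key2, mk4_lt, true_and] at hz hz'
          omega
        · simp only [key1, key2, mk4_lt, true_and] at hz hz'
          have h1 : e' = e := hcode (by omega)
          subst h1
          have h2 : e' c' = e' c := by ext; omega
          have h3 : c' = c := he.injective h2
          subst h3
          omega
    have cov2 : ∀ (e : Fin n → Fin M) (a b : Fin n), StrictMono e →
        Cov2 l1 l2 (eq a) (eq b) →
        Cov2 r1 r2 (Sum.inr (e, a) : W) (Sum.inr (e, b) : W) := by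
      intro e a b he hab
      have hlt : a < b := (heq a b).mp hab.1.1
      have helt : e a < e b := he hlt
      rw [Fin.lt_def] at helt
      refine ⟨?_, ?_⟩
      · rw [r1k, r2k]
        simp only [key1, key2, mk4_lt, true_and]
        have := hab.1.2
        omega
      · intro z hz hz'
        rw [r1k, r2k] at hz hz'
        rcases z with y | ⟨e', c'⟩
        · simp only [key1, key2, mk4_lt] at hz hz'
          omega
        · simp only [key1, key2, mk4_lt, true_and] at hz hz'
          have h1 : e' = e := hcode (by omega)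
          subst h1
          have h2 : l2 (eq a) < l2 (eq c') := by omega
          have h3 : l2 (eq c') < l2 (eq b) := by omega
          have h4 : (e' a).val ≤ (e' c').val := by omega
          have h5 : (e' c').val ≤ (e' b).val := by omega
          have h6 : a ≤ c' := he.le_iff_le.mp h4
          have h7 : c' ≤ b := he.le_iff_le.mp h5
          have h8 : a ≠ c' := fun h => by rw [h] at h2; omega
          have h9 : c' ≠ b := fun h => by rw [h] at h3; omega
          exact hab.2 (eq c') ⟨(heq _ _).mpr (lt_of_le_of_ne h6 h8), h2⟩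
            ⟨(heq _ _).mpr (lt_of_le_of_ne h7 h9), h3⟩
    refine ⟨W, inferInstance, r1, r2, r1i, r2i, ?_⟩
    intro C hC f hf
    by_contra hcon
    push Not at hcon
    -- pigeonhole
    have hpig : ∃ α ∈ C, n ≤ ((Finset.univ : Finset (Fin M)).filter
        (fun x => f (Sum.inl x) = α)).card := by
      apply Finset.exists_le_card_fiber_of_mul_le_card_of_maps_to
      · intro a _; exact hf _
      · exact ⟨f (Sum.inl ⟨0, by omega⟩), hf _⟩
      · rw [Finset.card_univ, Fintype.card_fin, hM]
        have : C.card * n ≤ (N + 1) * n := Nat.mul_le_mul_right _ hC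
        omega
    obtain ⟨α, hα, hn⟩ := hpig
    obtain ⟨Y, hY, hYc⟩ := Finset.exists_subset_card_eq hn
    let e : Fin n → Fin M := Y.orderEmbOfFin hYc
    have he : StrictMono e := (Y.orderEmbOfFin hYc).strictMono
    have heα : ∀ c, f (Sum.inl (e c)) = α := by
      intro c
      have := hY (Finset.orderEmbOfFin_mem Y hYc c)
      rw [Finset.mem_filter] at this
      exact this.2
    obtain ⟨x, y, hxy, hfxy⟩ := hcol (C.erase α)
      (by rw [Finset.card_erase_of_mem hα]; omega)
      (fun v => f (Sum.inr (e, eq.symm v))) (by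
        intro v
        rw [Finset.mem_erase]
        refine ⟨?_, hf _⟩
        have h1 := hcon _ _ (cov1 e (eq.symm v) he)
        rw [heα] at h1
        exact Ne.symm h1)
    refine hcon _ _ (cov2 e (eq.symm x) (eq.symm y) he ?_) hfxy
    simpa using hxy

/-- `d` rankings (`d ≥ 2`), all but the `j`-th equal, with cover graph of large chromatic
number. -/
theorem hcd {d : ℕ} (j i₀ : Fin d) (hij : i₀ ≠ j) (N : ℕ) :
    ∃ (V : Type) (_ : Finite V) (l1 l2 : V → ℕ), Function.Injective l1 ∧
    Function.Injective l2 ∧ ∀ f : V → ℕ, (∀ v, f v < N) →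
      ∃ x y, Cov (fun i => if i = j then l2 else l1) x y ∧ f x = f y := by
  obtain ⟨V, hV, l1, l2, i1, i2, h⟩ := hc N
  refine ⟨V, hV, l1, l2, i1, i2, fun f hf => ?_⟩
  obtain ⟨x, y, hxy, hfxy⟩ := h (Finset.range N) (by simp) f (fun v => by simp [hf v])
  refine ⟨x, y, ?_, hfxy⟩
  have key : ∀ a b, Lt' (fun i => if i = j then l2 else l1) a b ↔ (l1 a < l1 b ∧ l2 a < l2 b) := by
    intro a b
    constructor
    · intro hab
      have h1 := hab i₀
      have h2 := hab j
      simp only [hij, if_false] at h1
      simp only [if_true] at h2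
      exact ⟨h1, h2⟩
    · intro hab i
      beta_reduce
      split_ifs
      · exact hab.2
      · exact hab.1
  refine ⟨(key x y).mpr hxy.1, fun z hz hz' => ?_⟩
  exact hxy.2 z ((key _ _).mp hz) ((key _ _).mp hz')

end Pool.Agent.Hhelper41.Cover
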