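import Pool.Agent.Hhelper41.Cover.Ramsey

set_option autoImplicit false

namespace Pool.Agent.Hhelper41.Cover

/-- Valid tuples. -/
def Val (t m : ℕ) (e : Fin t → ℕ) : Prop := StrictMono e ∧ ∀ a, e a < m

/-- Homogeneity of a family of values attached to points and tuples. -/
def Homog {S : Type} (t m : ℕ) (Lp : S → (Fin t → ℕ) → ℕ) : Prop :=
  ∀ s s' e e' E E', Val t m e → Val t m e' → Val t m E → Val t m E' → SamePat e e' E E' →
    (Lp s e < Lp s' e' ↔ Lp s E < Lp s' E')

/-- The `n`-th block. -/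
def Bl (t n : ℕ) : Fin t → ℕ := fun c => n * t + c

theorem val_Bl {t m n : ℕ} (h : (n + 1) * t ≤ m) : Val t m (Bl t n) := by
  have h1 : n * t + t ≤ m := by nlinarith
  constructor
  · intro a b hab
    rw [Fin.lt_def] at hab
    simp only [Bl]; omega
  · intro a
    simp only [Bl]; omega

/-- Block relation. -/
def BA {S : Type} (t : ℕ) (Lp : S → (Fin t → ℕ) → ℕ) (s s' : S) : Prop :=
  Lp s (Bl t 0) < Lp s' (Bl t 1)

section
variable {S : Type} {t m : ℕ} {Lp : S → (Fin t → ℕ) → ℕ}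

theorem Homog.blk (hom : Homog t m Lp) (hm : 3 * t ≤ m) {e e' : Fin t → ℕ} (he : Val t m e)
    (he' : Val t m e') (h : ∀ a b, e a < e' b) (s s' : S) : Lp s e < Lp s' e' ↔ BA t Lp s s' := by
  refine hom s s' e e' (Bl t 0) (Bl t 1) he he' (val_Bl (by omega)) (val_Bl (by omega)) ⟨?_, ?_⟩
  · intro a b
    have h1 := h a b
    constructor
    · intro _
      simp only [Bl]; omega
    · intro _; exact h1
  · intro a b
    have h1 := h a b
    constructor
    · intro _; omega
    · intro h2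
      simp only [Bl] at h2; omega

theorem Homog.BA_trans (hom : Homog t m Lp) (hm : 3 * t ≤ m) {s s' s'' : S}
    (h1 : BA t Lp s s') (h2 : BA t Lp s' s'') : BA t Lp s s'' := by
  have v0 : Val t m (Bl t 0) := val_Bl (by omega)
  have v1 : Val t m (Bl t 1) := val_Bl (by omega)
  have v2 : Val t m (Bl t 2) := val_Bl (by omega)
  have a1 := (hom.blk hm v0 v1 (fun a b => by simp only [Bl]; omega) s s').mpr h1
  have a2 := (hom.blk hm v1 v2 (fun a b => by simp only [Bl]; omega) s' s'').mpr h2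
  exact (hom.blk hm v0 v2 (fun a b => by simp only [Bl]; omega) s s'').mp (a1.trans a2)

theorem Homog.nBA_trans (hom : Homog t m Lp) (hm : 3 * t ≤ m) {s s' s'' : S}
    (h1 : ¬ BA t Lp s s') (h2 : ¬ BA t Lp s' s'') : ¬ BA t Lp s s'' := by
  have v0 : Val t m (Bl t 0) := val_Bl (by omega)
  have v1 : Val t m (Bl t 1) := val_Bl (by omega)
  have v2 : Val t m (Bl t 2) := val_Bl (by omega)
  rw [← hom.blk hm v0 v1 (fun a b => by simp only [Bl]; omega) s s'] at h1
  rw [← hom.blk hm v1 v2 (fun a b => by simp only [Bl]; omega) s' s''] at h2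
  rw [← hom.blk hm v0 v2 (fun a b => by simp only [Bl]; omega) s s'']
  omega

/-- The rank function of the strict weak order. -/
theorem Homog.exists_kappa [Finite S] (hom : Homog t m Lp) (hm : 3 * t ≤ m) :
    ∃ κ : S → ℕ, ∀ s s', κ s < κ s' ↔ (BA t Lp s s' ∧ ¬ BA t Lp s' s) := by
  classical
  have := Fintype.ofFinite S
  let P : S → S → Prop := fun s s' => BA t Lp s s' ∧ ¬ BA t Lp s' s
  let κ : S → ℕ := fun s => (Finset.univ.filter (fun x => P x s)).card
  have Pirr : ∀ s, ¬ P s s := fun s h => h.2 h.1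
  have Ptr : ∀ {a b c}, P a b → P b c → P a c := by
    intro a b c h1 h2
    exact ⟨hom.BA_trans hm h1.1 h2.1, hom.nBA_trans hm h2.2 h1.2⟩
  have Pneg : ∀ {a c}, P a c → ∀ b, P a b ∨ P b c := by
    rintro a c ⟨hac, hca⟩ b
    by_cases hab : BA t Lp a b
    · by_cases hba : BA t Lp b a
      · right
        refine ⟨hom.BA_trans hm hba hac, fun hcb => hca (hom.BA_trans hm hcb hba)⟩
      · left; exact ⟨hab, hba⟩
    · right
      have hbc : BA t Lp b c := by
        by_contra hbc
        exact hom.nBA_trans hm hab hbc hac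
      exact ⟨hbc, fun hcb => hab (hom.BA_trans hm hac hcb)⟩
  have h1 : ∀ s s', P s s' → κ s < κ s' := by
    intro s s' h
    apply Finset.card_lt_card
    rw [Finset.ssubset_iff_of_subset]
    · exact ⟨s, by simpa using h, by simpa using Pirr s⟩
    · intro z hz
      simp only [Finset.mem_filter, Finset.mem_univ, true_and] at hz ⊢
      exact Ptr hz h
  refine ⟨κ, fun s s' => ⟨fun h => ?_, h1 s s'⟩⟩
  -- some x below s' and not below s
  have hex : ∃ x, P x s' ∧ ¬ P x s := by
    by_contra hcon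
    push Not at hcon
    have : κ s' ≤ κ s := by
      apply Finset.card_le_card
      intro z hz
      simp only [Finset.mem_filter, Finset.mem_univ, true_and] at hz ⊢
      exact hcon z hz
    omega
  obtain ⟨x, hx1, hx2⟩ := hex
  rcases Pneg hx1 s with h2 | h2
  · exact absurd h2 hx2
  · exact h2

/-- Fact N'. -/
theorem Homog.kappa_le (hom : Homog t m Lp) (hm : 3 * t ≤ m) {κ : S → ℕ}
    (hκ : ∀ s s', κ s < κ s' ↔ (BA t Lp s s' ∧ ¬ BA t Lp s' s)) {s s' : S} {e E : Fin t → ℕ}
    (he : Val t m e) (hE : Val t m E) (he1 : ∀ a, t ≤ e a ∧ e a < m - t)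
    (hE1 : ∀ a, t ≤ E a ∧ E a < m - t) (h : Lp s e < Lp s' E) : κ s ≤ κ s' := by
  by_contra hcon
  push Not at hcon
  obtain ⟨h1, h2⟩ := (hκ s' s).mp hcon
  -- right block
  have vr : Val t m (fun c => m - t + c.val) := by
    refine ⟨fun a b hab => ?_, fun a => ?_⟩
    · rw [Fin.lt_def] at hab
      simp only; omega
    · simp only; omega
  have vl : Val t m (Bl t 0) := val_Bl (by omega)
  have a1 : Lp s' E < Lp s (fun c => m - t + c.val) :=
    (hom.blk hm hE vr (fun a b => by have := (hE1 a).2; omega) s' s).mpr h1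
  have a2 : BA t Lp s s :=
    (hom.blk hm he vr (fun a b => by have := (he1 a).2; omega) s s).mp (h.trans a1)
  have a3 : ¬ (Lp s (Bl t 0) < Lp s' E) := fun h3 =>
    h2 ((hom.blk hm vl hE (fun a b => by
      have := (hE1 b).1
      simp only [Bl]; omega) s s').mp h3)
  have a4 : Lp s (Bl t 0) < Lp s e :=
    (hom.blk hm vl he (fun a b => by
      have := (he1 b).1
      simp only [Bl]; omega) s s).mpr a2
  omega

/-- Tuples around `x`. -/
def emb (t : ℕ) (x n : ℕ) (ρ : Fin t) : Fin t → ℕ := fun b =>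
  if b < ρ then x - (n * t + (ρ.val - b.val)) else
  if b = ρ then x else x + (n * t + (b.val - ρ.val))

/-- Sparse tuple. -/
def E0 (t : ℕ) : Fin t → ℕ := fun c => 2 * t * (c.val + 1)

theorem emb_self {t x n : ℕ} {ρ : Fin t} : emb t x n ρ ρ = x := by
  simp [emb]

theorem emb_lt {t x n : ℕ} {ρ b : Fin t} (h : b < ρ) :
    emb t x n ρ b = x - (n * t + (ρ.val - b.val)) := by
  simp [emb, h]

theorem emb_gt {t x n : ℕ} {ρ b : Fin t} (h : ρ < b) :
    emb t x n ρ b = x + (n * t + (b.val - ρ.val)) := by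
  have h1 : ¬ b < ρ := not_lt.mpr h.le
  have h2 : b ≠ ρ := ne_of_gt h
  simp [emb, h1, h2]

theorem emb_bounds {t x n : ℕ} {ρ : Fin t} (hx : n * t + t ≤ x) (b : Fin t) :
    x < emb t x n ρ b + (n * t + t) ∧ emb t x n ρ b < x + (n * t + t) := by
  rcases lt_trichotomy b ρ with h | h | h
  · rw [emb_lt h]
    rw [Fin.lt_def] at h
    omega
  · rw [h, emb_self]
    have := ρ.isLt
    omega
  · rw [emb_gt h]
    rw [Fin.lt_def] at h
    omega

theorem val_emb {t m x n : ℕ} {ρ : Fin t} (hx : n * t + t ≤ x) (hm : x + (n * t + t) ≤ m) :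
    Val t m (emb t x n ρ) := by
  constructor
  · intro a b hab
    rcases lt_trichotomy a ρ with ha | ha | ha <;> rcases lt_trichotomy b ρ with hb | hb | hb
    · rw [emb_lt ha, emb_lt hb]; rw [Fin.lt_def] at ha hb hab; omega
    · rw [emb_lt ha, hb, emb_self]; rw [Fin.lt_def] at ha; omega
    · rw [emb_lt ha, emb_gt hb]; rw [Fin.lt_def] at ha hb; omega
    · rw [Fin.lt_def] at *; omega
    · rw [ha, hb] at hab; exact absurd hab (lt_irrefl _)
    · rw [ha, emb_self, emb_gt hb]; rw [Fin.lt_def] at hb; omega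
    · rw [Fin.lt_def] at *; omega
    · rw [Fin.lt_def] at *; omega
    · rw [emb_gt ha, emb_gt hb]; rw [Fin.lt_def] at ha hb hab; omega
  · intro a
    have := (emb_bounds (ρ := ρ) hx a).2
    omega

theorem E0_lt {t : ℕ} {a b : Fin t} (h : a < b) : E0 t a + 2 * t ≤ E0 t b := by
  rw [Fin.lt_def] at h
  simp only [E0]
  have h1 : a.val + 1 + 1 ≤ b.val + 1 := by omega
  calc 2 * t * (a.val + 1) + 2 * t = 2 * t * (a.val + 1 + 1) := by ring
    _ ≤ 2 * t * (b.val + 1) := Nat.mul_le_mul_left _ h1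

theorem E0_ge {t : ℕ} (a : Fin t) : 2 * t ≤ E0 t a := by
  simp only [E0]
  nlinarith

theorem E0_le {t : ℕ} (a : Fin t) : E0 t a ≤ 2 * t * t := by
  simp only [E0]
  exact Nat.mul_le_mul_left _ a.isLt

theorem val_E0 {t m : ℕ} (hm : 2 * t * t + 2 * t ≤ m) : Val t m (E0 t) := by
  constructor
  · intro a b hab
    have := E0_lt hab
    have := a.isLt
    omega
  · intro a
    have := E0_le a
    have := a.isLt
    omega

theorem val_embE0 {t m : ℕ} (hm : 2 * t * t + 2 * t ≤ m) (c ρ : Fin t) :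
    Val t m (emb t (E0 t c) 0 ρ) := by
  apply val_emb
  · have := E0_ge c; omega
  · have := E0_le c; omega

/-- Nested tuples around a common point have the same pattern. -/
theorem samePat_nested {t x n n' : ℕ} {ρ c : Fin t} (hn : n < n') (hx : n' * t + t ≤ x) :
    SamePat (emb t x n ρ) (emb t x n' c) (emb t (E0 t c) 0 ρ) (E0 t) := by
  have hnn : n * t + t ≤ n' * t := by nlinarith
  have hc := E0_ge c
  have ht : 0 < t := by have := c.isLt; omega
  -- compare the position of the first tuple with x, and with the other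
  have b1 : ∀ a, x < emb t x n ρ a + (n * t + t) ∧ emb t x n ρ a < x + (n * t + t) :=
    fun a => emb_bounds (by omega) a
  have b2 : ∀ a, E0 t c < emb t (E0 t c) 0 ρ a + (0 * t + t) ∧
      emb t (E0 t c) 0 ρ a < E0 t c + (0 * t + t) :=
    fun a => emb_bounds (by omega) a
  have s1 : ∀ a, (a < ρ → emb t x n ρ a < x ∧ emb t (E0 t c) 0 ρ a < E0 t c) := by
    intro a h
    rw [emb_lt h, emb_lt h]
    rw [Fin.lt_def] at h
    omega
  have s2 : ∀ a, (ρ < a → x < emb t x n ρ a ∧ E0 t c < emb t (E0 t c) 0 ρ a) := by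
    intro a h
    rw [emb_gt h, emb_gt h]
    rw [Fin.lt_def] at h
    omega
  have s3 : emb t x n ρ ρ = x ∧ emb t (E0 t c) 0 ρ ρ = E0 t c := ⟨emb_self, emb_self⟩
  constructor
  · intro a b
    have h1 := b1 a
    have h2 := b2 a
    rcases lt_trichotomy b c with hb | hb | hb
    · have h3 := E0_lt hb
      have h4 : emb t x n' c b = x - (n' * t + (c.val - b.val)) := emb_lt hb
      rw [Fin.lt_def] at hb
      constructor <;> intro h <;> omega
    · subst hb
      have h4 : emb t x n' b b = x := emb_self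
      rw [h4]
      rcases lt_trichotomy a ρ with ha | ha | ha
      · have := s1 a ha; constructor <;> intro h <;> omega
      · subst ha; constructor <;> intro h <;> omega
      · have := s2 a ha; constructor <;> intro h <;> omega
    · have h3 := E0_lt hb
      have h4 : emb t x n' c b = x + (n' * t + (b.val - c.val)) := emb_gt hb
      rw [Fin.lt_def] at hb
      constructor <;> intro h <;> omega
  · intro a b
    have h1 := b1 a
    have h2 := b2 a
    rcases lt_trichotomy b c with hb | hb | hb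
    · have h3 := E0_lt hb
      have h4 : emb t x n' c b = x - (n' * t + (c.val - b.val)) := emb_lt hb
      rw [Fin.lt_def] at hb
      constructor <;> intro h <;> omega
    · subst hb
      have h4 : emb t x n' b b = x := emb_self
      rw [h4]
      rcases lt_trichotomy a ρ with ha | ha | ha
      · have := s1 a ha; constructor <;> intro h <;> omega
      · subst ha; constructor <;> intro h <;> omega
      · have := s2 a ha; constructor <;> intro h <;> omega
    · have h3 := E0_lt hb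
      have h4 : emb t x n' c b = x + (n' * t + (b.val - c.val)) := emb_gt hb
      rw [Fin.lt_def] at hb
      constructor <;> intro h <;> omega

theorem SamePat.symm' {t : ℕ} {e e' E E' : Fin t → ℕ} (h : SamePat e e' E E') :
    SamePat e' e E' E := ⟨fun a b => h.2 b a, fun a b => h.1 b a⟩

/-- The inclusion relation in canonical position. -/
def Incl (t : ℕ) (Lp : S → (Fin t → ℕ) → ℕ) (s1 s2 : S) (ρ : Fin t) (sw : Fin t → S)
    (c : Fin t) : Prop :=
  Lp s1 (emb t (E0 t c) 0 ρ) < Lp (sw c) (E0 t) ∧ Lp (sw c) (E0 t) < Lp s2 (emb t (E0 t c) 0 ρ)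

/-- Order part of Claim 1. -/
theorem Homog.claim1 (hom : Homog t m Lp) (hm : 3 * t ≤ m) (hm2 : 2 * t * t + 2 * t ≤ m)
    {κ : S → ℕ} (hκ : ∀ s s', κ s < κ s' ↔ (BA t Lp s s' ∧ ¬ BA t Lp s' s)) {s1 s2 : S}
    (hs : ¬ (κ s1 < κ s2)) (ρ : Fin t) (sw : Fin t → S) :
    (∀ c c', c < c' → Incl t Lp s1 s2 ρ sw c → Incl t Lp s1 s2 ρ sw c' →
      Lp (sw c) (E0 t) < Lp (sw c') (E0 t)) ∨
    (∀ c c', c < c' → Incl t Lp s1 s2 ρ sw c → Incl t Lp s1 s2 ρ sw c' →
      Lp (sw c') (E0 t) < Lp (sw c) (E0 t)) := by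
  rw [hκ] at hs
  have sep : ∀ c c' : Fin t, c < c' → ∀ a b, emb t (E0 t c) 0 ρ a < emb t (E0 t c') 0 ρ b := by
    intro c c' h a b
    have h1 := E0_lt h
    have h2 := (emb_bounds (x := E0 t c) (n := 0) (ρ := ρ) (by have := E0_ge c; omega) a).2
    have h3 := (emb_bounds (x := E0 t c') (n := 0) (ρ := ρ) (by have := E0_ge c'; omega) b).1
    omega
  by_cases h1 : BA t Lp s2 s1
  · left
    intro c c' hcc hc hc'
    have h2 := (hom.blk hm (val_embE0 hm2 c ρ) (val_embE0 hm2 c' ρ) (sep c c' hcc) s2 s1).mpr h1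
    exact (hc.2.trans h2).trans hc'.1
  · right
    have h2 : ¬ BA t Lp s1 s2 := fun h => hs ⟨h, h1⟩
    intro c c' hcc hc hc'
    have h3 : ¬ (Lp s1 (emb t (E0 t c) 0 ρ) < Lp s2 (emb t (E0 t c') 0 ρ)) := fun h =>
      h2 ((hom.blk hm (val_embE0 hm2 c ρ) (val_embE0 hm2 c' ρ) (sep c c' hcc) s1 s2).mp h)
    have := hc.1
    have := hc'.2
    omega

/-- Inclusion for nested tuples. -/
theorem Homog.incl_nested (hom : Homog t m Lp) (hm2 : 2 * t * t + 2 * t ≤ m)
    {x n n' : ℕ} {ρ c : Fin t} (hn : n < n') (hx : n' * t + t ≤ x) (hxm : x + (n' * t + t) ≤ m)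
    (s1 s2 : S) (sw : Fin t → S)
    (h : Lp s1 (emb t x n ρ) < Lp (sw c) (emb t x n' c) ∧
      Lp (sw c) (emb t x n' c) < Lp s2 (emb t x n ρ)) :
    Incl t Lp s1 s2 ρ sw c := by
  have hnn : n * t + t ≤ n' * t := by nlinarith
  have v1 : Val t m (emb t x n ρ) := val_emb (by omega) (by omega)
  have v2 : Val t m (emb t x n' c) := val_emb hx hxm
  have hp := samePat_nested (ρ := ρ) (c := c) hn hx
  exact ⟨(hom _ _ _ _ _ _ v1 v2 (val_embE0 hm2 c ρ) (val_E0 hm2) hp).mp h.1,
    (hom _ _ _ _ _ _ v2 v1 (val_E0 hm2) (val_embE0 hm2 c ρ) hp.symm').mp h.2⟩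

/-- Ranks in canonical position. -/
theorem Homog.incl_kappa (hom : Homog t m Lp) (hm : 3 * t ≤ m) (hm2 : 2 * t * t + 2 * t ≤ m)
    {κ : S → ℕ} (hκ : ∀ s s', κ s < κ s' ↔ (BA t Lp s s' ∧ ¬ BA t Lp s' s)) {s1 s2 : S}
    {ρ c : Fin t} {sw : Fin t → S} (h : Incl t Lp s1 s2 ρ sw c) :
    κ s1 ≤ κ (sw c) ∧ κ (sw c) ≤ κ s2 := by
  have v1 : Val t m (emb t (E0 t c) 0 ρ) := val_embE0 hm2 c ρ
  have v2 : Val t m (E0 t) := val_E0 hm2
  have hc := E0_ge c
  have hc' := E0_le c
  have ht : 0 < t := by have := c.isLt; omega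
  have m1 : ∀ a, t ≤ emb t (E0 t c) 0 ρ a ∧ emb t (E0 t c) 0 ρ a < m - t := by
    intro a
    have h1 := emb_bounds (t := t) (x := E0 t c) (n := 0) (ρ := ρ) (by omega) a
    omega
  have m2 : ∀ a, t ≤ E0 t a ∧ E0 t a < m - t := by
    intro a
    have h1 := E0_ge a
    have h2 := E0_le a
    omega
  exact ⟨hom.kappa_le hm hκ v1 v2 m1 m2 h.1, hom.kappa_le hm hκ v2 v1 m2 m1 h.2⟩

end

end Pool.Agent.Hhelper41.Cover
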