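import Pool.Agent.Hhelper41.Cover.Step

set_option autoImplicit false

namespace Pool.Agent.Hhelper41.Cover

theorem good {d : ℕ} (hd : 2 ≤ d) (k : ℕ) : ∀ (G : Finset (Fin d)), (Gᶜ).card = k + 1 →
    ∀ N r, ∃ (V : Type) (_ : Finite V) (rk : Fin d → V → ℕ),
      (∀ i, Function.Injective (rk i)) ∧ ¬ Col rk k G N r (Cov rk) := by
  classical
  have other : ∀ j : Fin d, ∃ i₀, i₀ ≠ j := by
    intro j
    have : Nontrivial (Fin d) := Fin.nontrivial_iff_two_le.mpr hd
    exact exists_ne j
  induction k with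
  | zero =>
    intro G hG N r
    obtain ⟨j, hj⟩ := Finset.card_eq_one.mp hG
    obtain ⟨i₀, hij⟩ := other j
    refine base0 j i₀ hij G (fun i => ?_) N r
    have h1 : i ∈ Gᶜ ↔ i = j := by rw [hj, Finset.mem_singleton]
    rw [Finset.mem_compl] at h1
    tauto
  | succ k ih =>
    intro G hG N r
    obtain ⟨j, hj⟩ : ∃ j, j ∈ Gᶜ := by
      rw [← Finset.Nonempty, ← Finset.card_pos]
      omega
    rw [Finset.mem_compl] at hj
    obtain ⟨i₀, hij⟩ := other j
    have hT : ∀ N r, ∃ (V : Type) (_ : Finite V) (rk : Fin d → V → ℕ),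
        (∀ i, Function.Injective (rk i)) ∧ ¬ Col rk k (insert j G) N r (Cov rk) := by
      intro N r
      apply ih
      have h1 : (insert j G)ᶜ = Gᶜ.erase j := by
        ext x
        simp only [Finset.mem_compl, Finset.mem_insert, Finset.mem_erase]
        tauto
      rw [h1, Finset.card_erase_of_mem (Finset.mem_compl.mpr hj), hG]
      rfl
    induction r generalizing N with
    | zero => exact baser j i₀ hij (k + 1) G N
    | succ r ihr =>
      obtain ⟨V, hV, rk, h1, h2⟩ := step j i₀ hij k G hj (N + 1) r (Nat.succ_pos _)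
        (fun N => ihr N) hT
      exact ⟨V, hV, rk, h1, fun h => h2 (h.mono (fun _ _ h => h) (Nat.le_succ _) le_rfl)⟩

end Pool.Agent.Hhelper41.Cover
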