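import Pool.Agent.Hhelper41.Cover.Main

set_option autoImplicit false

namespace Pool.Agent.Hhelper41.Cover.Raw

open Pool.Agent.Hhelper41.Cover

/-- Padding a nonempty family of functions to a longer family. -/
theorem pad {α : Type} {t n : ℕ} (ht : 0 < t) (htn : t ≤ n) (L : Fin t → α → ℕ) :
    ∃ L' : Fin n → α → ℕ, (∀ i, ∃ i', L' i = L i') ∧ (∀ i', ∃ i, L' i = L i') := by
  refine ⟨fun i => L ⟨i.val % t, Nat.mod_lt _ ht⟩, fun i => ⟨_, rfl⟩, fun i' => ?_⟩
  refine ⟨⟨i'.val, lt_of_lt_of_le i'.isLt htn⟩, ?_⟩
  have : i'.val % t = i'.val := Nat.mod_eq_of_lt i'.isLt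
  simp only [this]

/-- For all positive d, r there is a finite poset of dimension d such that every r-colouring of its cover edges has a colour class whose subdiagram has upper-cover and lower-cover dimension both equal to d. -/
theorem raw :
  ∀ d r : ℕ, 0 < d → 0 < r →
    ∃ (α : Type) (_ : Finite α) (_ : PartialOrder α),
      (∀ t : ℕ, 0 < t →
        ((∃ L : Fin t → α → ℕ, (∀ i, Function.Injective (L i)) ∧
            (∀ i x y, x < y → L i x < L i y) ∧
            (∀ x y, (∀ i, L i x ≤ L i y) → x ≤ y)) ↔ d ≤ t)) ∧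
      ∀ φ : α → α → Fin r, ∃ c : Fin r,
        (∀ t : ℕ, 0 < t →
          ((∃ L : Fin t → α → ℕ, (∀ i, Function.Injective (L i)) ∧
              (∀ i x z, x ⋖ z → φ x z = c → L i x < L i z) ∧
              (∀ x y z, x ≠ y → x ⋖ z → φ x z = c → y ⋖ z → φ y z = c →
                ∃ i, L i y < L i x)) ↔ d ≤ t)) ∧
        (∀ t : ℕ, 0 < t →
          ((∃ L : Fin t → α → ℕ, (∀ i, Function.Injective (L i)) ∧
              (∀ i x z, x ⋖ z → φ x z = c → L i x < L i z) ∧
              (∀ x y z, x ≠ y → z ⋖ x → φ z x = c → z ⋖ y → φ z y = c →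
                ∃ i, L i y < L i x)) ↔ d ≤ t)) := by
  classical
  intro d r hd hr
  rcases Nat.lt_or_ge d 2 with hd2 | hd2
  · -- dimension one
    have hd1 : d = 1 := by omega
    subst hd1
    refine ⟨Unit, inferInstance, inferInstance, ?_, ?_⟩
    · intro t ht
      refine ⟨fun _ => ht, fun _ => ⟨fun _ _ => 0, fun _ _ _ _ => rfl, ?_, fun _ _ _ => le_rfl⟩⟩
      intro i x y hxy
      exact absurd hxy (lt_irrefl _)
    · intro φ
      refine ⟨⟨0, hr⟩, ?_, ?_⟩
      · intro t ht
        refine ⟨fun _ => ht, fun _ => ⟨fun _ _ => 0, fun _ _ _ _ => rfl, ?_, ?_⟩⟩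
        · intro i x z hxz
          exact absurd hxz.lt (lt_irrefl _)
        · intro x y z hxy
          exact absurd rfl hxy
      · intro t ht
        refine ⟨fun _ => ht, fun _ => ⟨fun _ _ => 0, fun _ _ _ _ => rfl, ?_, ?_⟩⟩
        · intro i x z hxz
          exact absurd hxz.lt (lt_irrefl _)
        · intro x y z hxy
          exact absurd rfl hxy
  · obtain ⟨V, hV, rk, inj, hcol⟩ := good hd2 (d - 1) (∅ : Finset (Fin d))
      (by simp; omega) 1 r
    let i₀ : Fin d := ⟨0, hd⟩
    let P : PartialOrder V :=
      { le := fun x y => ∀ i, rk i x ≤ rk i y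
        le_refl := fun x i => le_rfl
        le_trans := fun x y z h1 h2 i => (h1 i).trans (h2 i)
        le_antisymm := fun x y h1 h2 => inj i₀ (le_antisymm (h1 i₀) (h2 i₀)) }
    have hle : ∀ x y : V, x ≤ y ↔ ∀ i, rk i x ≤ rk i y := fun x y => Iff.rfl
    have hlt : ∀ x y : V, x < y ↔ Lt' rk x y := by
      intro x y
      constructor
      · intro h i
        refine lt_of_le_of_ne ((hle x y).mp h.le i) (fun h' => ?_)
        exact absurd (inj i h') h.ne
      · intro h
        refine lt_of_le_of_ne ((hle x y).mpr (fun i => (h i).le)) (fun h' => ?_)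
        rw [h'] at h
        exact absurd (h i₀) (lt_irrefl _)
    have hcov : ∀ x y : V, x ⋖ y ↔ Cov rk x y := by
      intro x y
      constructor
      · intro h
        exact ⟨(hlt _ _).mp h.1, fun z h1 h2 => h.2 ((hlt _ _).mpr h1) ((hlt _ _).mpr h2)⟩
      · intro h
        exact ⟨(hlt _ _).mpr h.1, fun z h1 h2 => h.2 z ((hlt _ _).mp h1) ((hlt _ _).mp h2)⟩
    have key : ∀ φ : V → V → Fin r, ∃ c : Fin r,
        ¬ Simple rk (d - 1) (∅ : Finset (Fin d)) (fun x y => x ⋖ y ∧ φ x y = c) := by
      intro φ
      by_contra hcon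
      push Not at hcon
      apply hcol
      refine ⟨fun _ => 0, fun x y => (φ x y).val, fun _ => Nat.zero_lt_one,
        fun x y _ _ => (φ x y).isLt, ?_⟩
      intro c b
      by_cases hb : b < r
      · refine (hcon ⟨b, hb⟩).mono ?_
        rintro x y ⟨h1, _, _, h2⟩
        exact ⟨(hcov _ _).mpr h1, Fin.ext h2⟩
      · apply simple_empty
        rintro x y ⟨_, _, _, h2⟩
        exact hb (h2 ▸ (φ x y).isLt)
    -- a small upper-cover or lower-cover realizer of a colour class gives simplicity
    have up : ∀ (φ : V → V → Fin r) (c : Fin r) (t : ℕ), 0 < t → t < d →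
        (∃ L : Fin t → V → ℕ, (∀ i, Function.Injective (L i)) ∧
          (∀ i x z, x ⋖ z → φ x z = c → L i x < L i z) ∧
          (∀ x y z, x ≠ y → x ⋖ z → φ x z = c → y ⋖ z → φ y z = c → ∃ i, L i y < L i x)) →
        Simple rk (d - 1) (∅ : Finset (Fin d)) (fun x y => x ⋖ y ∧ φ x y = c) := by
      rintro φ c t ht htd ⟨L, l1, l2, l3⟩
      obtain ⟨L', p1, p2⟩ := pad ht (show t ≤ d - 1 by omega) L
      refine ⟨L', true, ?_, ?_, ?_⟩
      · intro m
        obtain ⟨i', h⟩ := p1 m
        rw [h]; exact l1 i'
      · intro m x y hxy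
        obtain ⟨i', h⟩ := p1 m
        rw [h]; exact l2 i' x y hxy.1 hxy.2
      · intro x y z hx hy hM _
        simp only [Edg, if_true] at hx hy
        have hall : ∀ i, L i x < L i y := by
          intro i
          obtain ⟨m, h⟩ := p2 i
          rw [← h]; exact hM m
        have hne : x ≠ y := by
          intro h
          rw [h] at hall
          exact absurd (hall ⟨0, ht⟩) (lt_irrefl _)
        obtain ⟨i, hi⟩ := l3 x y z hne hx.1 hx.2 hy.1 hy.2
        exact absurd (hall i) (not_lt.mpr hi.le)
    have dn : ∀ (φ : V → V → Fin r) (c : Fin r) (t : ℕ), 0 < t → t < d →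
        (∃ L : Fin t → V → ℕ, (∀ i, Function.Injective (L i)) ∧
          (∀ i x z, x ⋖ z → φ x z = c → L i x < L i z) ∧
          (∀ x y z, x ≠ y → z ⋖ x → φ z x = c → z ⋖ y → φ z y = c → ∃ i, L i y < L i x)) →
        Simple rk (d - 1) (∅ : Finset (Fin d)) (fun x y => x ⋖ y ∧ φ x y = c) := by
      rintro φ c t ht htd ⟨L, l1, l2, l3⟩
      obtain ⟨L', p1, p2⟩ := pad ht (show t ≤ d - 1 by omega) L
      refine ⟨L', false, ?_, ?_, ?_⟩
      · intro m
        obtain ⟨i', h⟩ := p1 m
        rw [h]; exact l1 i'
      · intro m x y hxy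
        obtain ⟨i', h⟩ := p1 m
        rw [h]; exact l2 i' x y hxy.1 hxy.2
      · intro x y z hx hy hM _
        simp only [Edg] at hx hy
        have hall : ∀ i, L i x < L i y := by
          intro i
          obtain ⟨m, h⟩ := p2 i
          rw [← h]; exact hM m
        have hne : x ≠ y := by
          intro h
          rw [h] at hall
          exact absurd (hall ⟨0, ht⟩) (lt_irrefl _)
        obtain ⟨i, hi⟩ := l3 x y z hne hx.1 hx.2 hy.1 hy.2
        exact absurd (hall i) (not_lt.mpr hi.le)
    refine ⟨V, hV, P, ?_, ?_⟩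
    · intro t ht
      constructor
      · rintro ⟨L, l1, l2, l3⟩
        by_contra hcon
        obtain ⟨c, hc⟩ := key (fun _ _ => ⟨0, hr⟩)
        apply hc
        refine up _ c t ht (by omega) ⟨L, l1, fun i x z hxz _ => l2 i x z hxz.lt, ?_⟩
        intro x y z hxy hxz _ hyz _
        by_contra hno
        push Not at hno
        have h1 : x ≤ y := l3 x y hno
        exact hxz.2 (lt_of_le_of_ne h1 hxy) hyz.lt
      · intro hdt
        obtain ⟨L', p1, p2⟩ := pad hd hdt rk
        refine ⟨L', ?_, ?_, ?_⟩
        · intro i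
          obtain ⟨i', h⟩ := p1 i
          rw [h]; exact inj i'
        · intro i x y hxy
          obtain ⟨i', h⟩ := p1 i
          rw [h]; exact (hlt x y).mp hxy i'
        · intro x y hall
          rw [hle]
          intro i
          obtain ⟨m, h⟩ := p2 i
          rw [← h]; exact hall m
    · intro φ
      obtain ⟨c, hc⟩ := key φ
      refine ⟨c, ?_, ?_⟩
      · intro t ht
        constructor
        · intro h
          by_contra hcon
          exact hc (up φ c t ht (by omega) h)
        · intro hdt
          obtain ⟨L', p1, p2⟩ := pad hd hdt rk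
          refine ⟨L', ?_, ?_, ?_⟩
          · intro i
            obtain ⟨i', h⟩ := p1 i
            rw [h]; exact inj i'
          · intro i x y hxy _
            obtain ⟨i', h⟩ := p1 i
            rw [h]; exact (hlt x y).mp hxy.lt i'
          · intro x y z hxy hxz _ hyz _
            by_contra hno
            push Not at hno
            have h1 : x ≤ y := by
              rw [hle]
              intro i
              obtain ⟨m, h⟩ := p2 i
              rw [← h]; exact hno m
            exact hxz.2 (lt_of_le_of_ne h1 hxy) hyz.lt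
      · intro t ht
        constructor
        · intro h
          by_contra hcon
          exact hc (dn φ c t ht (by omega) h)
        · intro hdt
          obtain ⟨L', p1, p2⟩ := pad hd hdt rk
          refine ⟨L', ?_, ?_, ?_⟩
          · intro i
            obtain ⟨i', h⟩ := p1 i
            rw [h]; exact inj i'
          · intro i x y hxy _
            obtain ⟨i', h⟩ := p1 i
            rw [h]; exact (hlt x y).mp hxy.lt i'
          · intro x y z hxy hzx _ hzy _
            by_contra hno
            push Not at hno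
            have h1 : x ≤ y := by
              rw [hle]
              intro i
              obtain ⟨m, h⟩ := p2 i
              rw [← h]; exact hno m
            exact hzy.2 hzx.lt (lt_of_le_of_ne h1 hxy)

end Pool.Agent.Hhelper41.Cover.Raw
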