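import Pool.Agent.Hhelper41.Cover.Basic

set_option autoImplicit false

namespace Pool.Agent.Hhelper41.Cover

/-- Growth function. -/
def ff (n : ℕ) : ℕ := 4 * (n * n * n) + 3 * n

theorem le_ff (n : ℕ) : n ≤ ff n := by unfold ff; omega

section
variable {V : Type} [Finite V] {d : ℕ} {rk : Fin d → V → ℕ} {k : ℕ} {G : Finset (Fin d)}

theorem halving {n : ℕ} (Θv Θu : V → V → Prop) (κ : V → ℕ) (g : V → V → ℕ)
    (hv : ¬ Col rk k G (ff n) (ff n) Θv) (hu : ¬ Col rk k G (ff n) (ff n) Θu) :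
    ∃ Θv' Θu' : V → V → Prop, (∀ x y, Θv' x y → Θv x y) ∧ (∀ x y, Θu' x y → Θu x y) ∧
      ¬ Col rk k G n n Θv' ∧ ¬ Col rk k G n n Θu' ∧
      ((∀ a b, Θv' a b → ¬ (κ a < κ b)) ∨
        (∀ a b, Θv' a b → ∀ a' b', Θu' a' b' → ¬ (κ a ≤ g a' b' ∧ g a' b' ≤ κ b))) := by
  classical
  by_cases h1 : Col rk k G n n (fun a b => Θv a b ∧ ¬ (κ a < κ b))
  swap
  · refine ⟨fun a b => Θv a b ∧ ¬ (κ a < κ b), Θu, fun x y h => h.1, fun x y h => h, h1, ?_,
      Or.inl (fun a b h => h.2)⟩
    exact fun h => hu (h.mono (fun _ _ h => h) (le_ff n) (le_ff n))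
  -- Low parts
  have hbd : ∃ Q, ∀ v, κ v ≤ Q := by
    obtain ⟨Q, hQ⟩ := (Set.finite_range κ).bddAbove
    exact ⟨Q, fun v => hQ ⟨v, rfl⟩⟩
  obtain ⟨Q, hQ⟩ := hbd
  have hex : ∃ q, ¬ Col rk k G n n (fun a b => Θv a b ∧ κ a < κ b ∧ κ b ≤ q) := by
    refine ⟨Q, fun h2 => hv ?_⟩
    have h3 := Col.union (Θ := Θv) (fun x y hxy => ?_) h1 h2
    · refine h3.mono (fun _ _ h => h) ?_ ?_
      · unfold ff
        rcases Nat.eq_zero_or_pos n with h | h
        · subst h; simp
        · have : n * n ≤ n * n * n := Nat.le_mul_of_pos_right _ h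
          omega
      · unfold ff; omega
    · by_cases h : κ x < κ y
      · right; exact ⟨hxy, h, hQ y⟩
      · left; exact ⟨hxy, h⟩
  let q := Nat.find hex
  have hq : ¬ Col rk k G n n (fun a b => Θv a b ∧ κ a < κ b ∧ κ b ≤ q) := Nat.find_spec hex
  have hq' : ∀ q' < q, Col rk k G n n (fun a b => Θv a b ∧ κ a < κ b ∧ κ b ≤ q') := by
    intro q' hlt
    by_contra hcon
    exact Nat.find_min hex hlt hcon
  have hlow : Col rk k G n n (fun a b => Θv a b ∧ κ a < κ b ∧ κ b < q) := by
    rcases Nat.eq_zero_or_pos q with h | h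
    · refine h1.mono (fun x y hxy => ?_) le_rfl le_rfl
      exfalso
      rw [h] at hxy
      exact Nat.not_lt_zero _ hxy.2.2
    · refine (hq' (q - 1) (by omega)).mono (fun x y hxy => ?_) le_rfl le_rfl
      exact ⟨hxy.1, hxy.2.1, by have := hxy.2.2; omega⟩
  have hhigh : ¬ Col rk k G n n (fun a b => Θv a b ∧ κ a < κ b ∧ q < κ a) := by
    intro hh
    apply hv
    have c1 : Col rk k G 2 0 (fun a b => κ a < q ∧ q ≤ κ b) :=
      col_crossing2 (fun v => κ v < q) (fun x y hxy h => by
        have := h.mp hxy.1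
        have := hxy.2
        omega)
    have c2 : Col rk k G 2 0 (fun a b => κ a = q ∧ q < κ b) :=
      col_crossing2 (fun v => κ v = q) (fun x y hxy h => by
        have := h.mp hxy.1
        have := hxy.2
        omega)
    have u1 := Col.union (Θ := fun x y => (Θv x y ∧ ¬ (κ x < κ y)) ∨
      (Θv x y ∧ κ x < κ y ∧ κ y < q)) (fun x y h => h) h1 hlow
    have u2 := Col.union (Θ := fun x y => (κ x < q ∧ q ≤ κ y) ∨ (κ x = q ∧ q < κ y))
      (fun x y h => h) c1 c2
    have u3 := Col.union (Θ := fun x y => ((Θv x y ∧ ¬ (κ x < κ y)) ∨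
      (Θv x y ∧ κ x < κ y ∧ κ y < q)) ∨ ((κ x < q ∧ q ≤ κ y) ∨ (κ x = q ∧ q < κ y)))
      (fun x y h => h) u1 u2
    have u4 := Col.union (Θ := Θv) (fun x y hxy => ?_) u3 hh
    · refine u4.mono (fun _ _ h => h) ?_ ?_
      · unfold ff
        nlinarith
      · unfold ff; omega
    · by_cases a1 : κ x < κ y
      · by_cases a2 : κ y < q
        · left; left; right; exact ⟨hxy, a1, a2⟩
        · rcases lt_trichotomy (κ x) q with a3 | a3 | a3
          · left; right; left; exact ⟨a3, by omega⟩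
          · left; right; right; exact ⟨a3, by omega⟩
          · right; exact ⟨hxy, a1, a3⟩
      · left; left; left; exact ⟨hxy, a1⟩
  -- split the other family
  by_cases h2 : Col rk k G n n (fun a b => Θu a b ∧ g a b ≤ q)
  · refine ⟨fun a b => Θv a b ∧ κ a < κ b ∧ κ b ≤ q, fun a b => Θu a b ∧ q < g a b,
      fun x y h => h.1, fun x y h => h.1, hq, ?_, Or.inr ?_⟩
    · intro h3
      apply hu
      have h4 := Col.union (Θ := Θu) (fun x y hxy => ?_) h2 h3
      · refine h4.mono (fun _ _ h => h) ?_ ?_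
        · unfold ff
          rcases Nat.eq_zero_or_pos n with h | h
          · subst h; simp
          · have : n * n ≤ n * n * n := Nat.le_mul_of_pos_right _ h
            omega
        · unfold ff; omega
      · by_cases h : g x y ≤ q
        · left; exact ⟨hxy, h⟩
        · right; exact ⟨hxy, not_le.mp h⟩
    · intro a b hab a' b' hab' h
      have := hab.2.2
      have := hab'.2
      omega
  · refine ⟨fun a b => Θv a b ∧ κ a < κ b ∧ q < κ a, fun a b => Θu a b ∧ g a b ≤ q,
      fun x y h => h.1, fun x y h => h.1, hhigh, h2, Or.inr ?_⟩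
    intro a b hab a' b' hab' h
    have := hab.2.2
    have := hab'.2
    omega

/-- Property of a triple. -/
def QQ {X : Type} {K : ℕ} (κ : Fin K → X → V → ℕ) (ρ : V → V → V)
    (p : X × X × Fin K) (Θ : X → V → V → Prop) : Prop :=
  p.1 ≠ p.2.1 → ((∀ a b, Θ p.1 a b → ¬ (κ p.2.2 p.1 a < κ p.2.2 p.1 b)) ∨
        (∀ a b, Θ p.1 a b → ∀ a' b', Θ p.2.1 a' b' →
          ¬ (κ p.2.2 p.1 a ≤ κ p.2.2 p.2.1 (ρ a' b') ∧ κ p.2.2 p.2.1 (ρ a' b') ≤ κ p.2.2 p.1 b)))

omit [Finite V] in
theorem QQ.mono {X : Type} {K : ℕ} {κ : Fin K → X → V → ℕ} {ρ : V → V → V}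
    {p : X × X × Fin K} {Θ Θ' : X → V → V → Prop} (h : ∀ x a b, Θ' x a b → Θ x a b)
    (hQ : QQ κ ρ p Θ) : QQ κ ρ p Θ' := by
  intro hp
  rcases hQ hp with h1 | h1
  · left
    exact fun a b hab => h1 a b (h _ _ _ hab)
  · right
    exact fun a b hab a' b' hab' => h1 a b (h _ _ _ hab) a' b' (h _ _ _ hab')

theorem iter_halving {X : Type} [DecidableEq X] {K : ℕ} (κ : Fin K → X → V → ℕ)
    (ρ : V → V → V) (s : Finset (X × X × Fin K)) : ∀ (n : ℕ) (Θ : X → V → V → Prop),
      (∀ x, ¬ Col rk k G (ff^[s.card] n) (ff^[s.card] n) (Θ x)) →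
      ∃ Θ' : X → V → V → Prop, (∀ x a b, Θ' x a b → Θ x a b) ∧ (∀ x, ¬ Col rk k G n n (Θ' x)) ∧
        ∀ p ∈ s, QQ κ ρ p Θ' := by
  induction s using Finset.induction_on with
  | empty =>
    intro n Θ hΘ
    exact ⟨Θ, fun _ _ _ h => h, fun x => by simpa using hΘ x, fun p hp => by simp at hp⟩
  | insert p s hp ih =>
    intro n Θ hΘ
    rw [Finset.card_insert_of_notMem hp, Function.iterate_succ_apply'] at hΘ
    -- process p first
    obtain ⟨Θ1, h1, h2, h3⟩ : ∃ Θ1 : X → V → V → Prop, (∀ x a b, Θ1 x a b → Θ x a b) ∧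
        (∀ x, ¬ Col rk k G (ff^[s.card] n) (ff^[s.card] n) (Θ1 x)) ∧ QQ κ ρ p Θ1 := by
      by_cases hpp : p.1 = p.2.1
      · refine ⟨Θ, fun _ _ _ h => h, fun x hx => ?_, fun h => absurd hpp h⟩
        exact hΘ x (hx.mono (fun _ _ h => h) (le_ff _) (le_ff _))
      · obtain ⟨Θv', Θu', a1, a2, a3, a4, a5⟩ := halving (Θ p.1) (Θ p.2.1) (κ p.2.2 p.1)
          (fun a' b' => κ p.2.2 p.2.1 (ρ a' b')) (hΘ p.1) (hΘ p.2.1)
        refine ⟨fun x => if x = p.1 then Θv' else if x = p.2.1 then Θu' else Θ x, ?_, ?_, ?_⟩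
        · intro x a b hab
          by_cases hx1 : x = p.1
          · simp only [hx1, if_true] at hab
            rw [hx1]; exact a1 _ _ hab
          · by_cases hx2 : x = p.2.1
            · simp only [hx2, if_true] at hab
              rw [if_neg (fun h => hpp h.symm)] at hab
              rw [hx2]; exact a2 _ _ hab
            · simp only [hx1, hx2, if_false] at hab
              exact hab
        · intro x
          by_cases hx1 : x = p.1
          · simp only [hx1, if_true]
            exact a3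
          · by_cases hx2 : x = p.2.1
            · simp only [hx2, if_true]
              rw [if_neg (fun h => hpp h.symm)]
              exact a4
            · simp only [hx1, hx2, if_false]
              exact fun hx => hΘ x (hx.mono (fun _ _ h => h) (le_ff _) (le_ff _))
        · intro _
          simp only [if_true]
          rw [if_neg (fun h => hpp h.symm)]
          exact a5
    obtain ⟨Θ2, b1, b2, b3⟩ := ih n Θ1 h2
    refine ⟨Θ2, fun x a b hab => h1 _ _ _ (b1 _ _ _ hab), b2, ?_⟩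
    intro p' hp'
    rcases Finset.mem_insert.mp hp' with h | h
    · rw [h]; exact h3.mono b1
    · exact b3 p' h

/-- Number used in the selection lemma. -/
def selN (nX K : ℕ) : ℕ := ff^[nX * (nX * K)] (2 ^ (nX * K))

theorem selection {X : Type} [Fintype X] {K : ℕ} (τ : X → ℕ) (hτ : Function.Injective τ)
    (κ : Fin K → X → V → ℕ) (ρ : V → V → V) (Θ : X → V → V → Prop)
    (Bad : X → V → V → X → Fin K → V → V → Prop)
    (hrich : ∀ x, ¬ Col rk k G (selN (Fintype.card X) K) (selN (Fintype.card X) K) (Θ x))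
    (hN : ∀ v a b w m a' b', Bad v a b w m a' b' →
      κ m v a ≤ κ m w (ρ a' b') ∧ κ m w (ρ a' b') ≤ κ m v b)
    (hC : ∀ v a b w m, Θ v a b → ¬ (κ m v a < κ m v b) →
      Col rk k G 2 1 (fun a' b' => Θ w a' b' ∧ Bad v a b w m a' b')) :
    ∃ θ : X → V × V, (∀ v, Θ v (θ v).1 (θ v).2) ∧
      ∀ v w, τ v < τ w → ∀ m, ¬ Bad v (θ v).1 (θ v).2 w m (θ w).1 (θ w).2 := by
  classical
  set nX := Fintype.card X with hnX
  have hcard : (Finset.univ : Finset (X × X × Fin K)).card = nX * (nX * K) := by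
    rw [Finset.card_univ, Fintype.card_prod, Fintype.card_prod, Fintype.card_fin]
  obtain ⟨Θ', h1, h2, h3⟩ := iter_halving κ ρ (Finset.univ : Finset (X × X × Fin K))
    (2 ^ (nX * K)) Θ (by rw [hcard]; exact hrich)
  have hpos : 0 < 2 ^ (nX * K) := by positivity
  have hne : ∀ x, ∃ p : V × V, Θ' x p.1 p.2 := by
    intro x
    by_contra hcon
    push Not at hcon
    exact h2 x (col_empty hpos (fun a b => hcon (a, b)))
  choose θ0 hθ0 using hne
  have key : ∀ n : ℕ, ∃ θ : X → V × V, (∀ v, Θ' v (θ v).1 (θ v).2) ∧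
      ∀ v w, τ v < τ w → τ w < n → ∀ m, ¬ Bad v (θ v).1 (θ v).2 w m (θ w).1 (θ w).2 := by
    intro n
    induction n with
    | zero => exact ⟨θ0, hθ0, fun v w _ h => absurd h (Nat.not_lt_zero _)⟩
    | succ n ih =>
      obtain ⟨θ, hθ, hb⟩ := ih
      by_cases hw : ∃ w, τ w = n
      swap
      · refine ⟨θ, hθ, fun v w hvw hwn => hb v w hvw ?_⟩
        have : τ w ≠ n := fun h => hw ⟨w, h⟩
        omega
      obtain ⟨w, hw⟩ := hw
      -- choose a new value at w
      obtain ⟨p, hp, hpb⟩ : ∃ p : V × V, Θ' w p.1 p.2 ∧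
          ∀ v, τ v < τ w → ∀ m, ¬ Bad v (θ v).1 (θ v).2 w m p.1 p.2 := by
        by_contra hcon
        push Not at hcon
        let S : Finset (X × Fin K) := Finset.univ.filter
          (fun q => τ q.1 < τ w ∧ ¬ (κ q.2 q.1 (θ q.1).1 < κ q.2 q.1 (θ q.1).2))
        have hS := col_biUnion (rk := rk) (k := k) (G := G) 2 1 S
          (fun q a' b' => Θ w a' b' ∧ Bad q.1 (θ q.1).1 (θ q.1).2 w q.2 a' b') (by
            intro q hq
            rw [Finset.mem_filter] at hq
            exact hC q.1 _ _ w q.2 (h1 _ _ _ (hθ q.1)) hq.2.2)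
        have hSc : S.card ≤ nX * K := by
          calc S.card ≤ (Finset.univ : Finset (X × Fin K)).card := Finset.card_filter_le _ _
            _ = nX * K := by rw [Finset.card_univ, Fintype.card_prod, Fintype.card_fin]
        refine h2 w (hS.mono ?_ ?_ ?_)
        · intro a' b' hab
          obtain ⟨v, hv, m, hm⟩ := hcon (a', b') hab
          refine ⟨(v, m), ?_, h1 _ _ _ hab, hm⟩
          rw [Finset.mem_filter]
          refine ⟨Finset.mem_univ _, hv, ?_⟩
          intro htype
          have hvw : v ≠ w := fun h => by rw [h] at hv; exact absurd hv (lt_irrefl _)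
          rcases h3 (v, w, m) (Finset.mem_univ _) hvw with h4 | h4
          · exact h4 _ _ (hθ v) htype
          · exact h4 _ _ (hθ v) _ _ hab (hN _ _ _ _ _ _ _ hm)
        · exact Nat.pow_le_pow_right (by norm_num) hSc
        · have : nX * K < 2 ^ (nX * K) := Nat.lt_two_pow_self
          omega
      refine ⟨Function.update θ w p, ?_, ?_⟩
      · intro v
        by_cases hv : v = w
        · rw [hv, Function.update_self]; exact hp
        · rw [Function.update_of_ne hv]; exact hθ v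
      · intro v u hvu hun m
        have hv : v ≠ w := by
          intro h
          rw [h, hw] at hvu
          omega
        rw [Function.update_of_ne hv]
        by_cases hu : u = w
        · rw [hu, Function.update_self]
          rw [hu] at hvu
          exact hpb v hvu m
        · rw [Function.update_of_ne hu]
          have : τ u ≠ n := fun h => hu (hτ (h.trans hw.symm))
          exact hb v u hvu (by omega) m
  obtain ⟨R, hR⟩ : ∃ R, ∀ v, τ v < R := by
    obtain ⟨R, hR⟩ := (Set.finite_range τ).bddAbove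
    exact ⟨R + 1, fun v => Nat.lt_succ_of_le (hR ⟨v, rfl⟩)⟩
  obtain ⟨θ, hθ, hb⟩ := key R
  exact ⟨θ, fun v => h1 _ _ _ (hθ v), fun v w hvw => hb v w hvw (hR w)⟩

end

end Pool.Agent.Hhelper41.Cover
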