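import Pool.Agent.Hhelper41.Cover.Select
import Pool.Agent.Hhelper41.Cover.Homog
import Pool.Agent.Hhelper41.Cover.Constr
import Pool.Agent.Hhelper41.Cover.Base

set_option autoImplicit false

namespace Pool.Agent.Hhelper41.Cover

theorem step {d : ℕ} (j i₀ : Fin d) (hij : i₀ ≠ j) (k : ℕ) (G : Finset (Fin d)) (hjG : j ∉ G)
    (N r : ℕ) (hN0 : 0 < N)
    (hB : ∀ N, ∃ (V : Type) (_ : Finite V) (rk : Fin d → V → ℕ),
      (∀ i, Function.Injective (rk i)) ∧ ¬ Col rk (k + 1) G N r (Cov rk))
    (hT : ∀ N r, ∃ (V : Type) (_ : Finite V) (rk : Fin d → V → ℕ),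
      (∀ i, Function.Injective (rk i)) ∧ ¬ Col rk k (insert j G) N r (Cov rk)) :
    ∃ (V : Type) (_ : Finite V) (rk : Fin d → V → ℕ),
      (∀ i, Function.Injective (rk i)) ∧ ¬ Col rk (k + 1) G N (r + 1) (Cov rk) := by
  classical
  obtain ⟨B, hBf, rkB, injB, hBcol⟩ := hB (N * (r + 1))
  have hBF := Fintype.ofFinite B
  set n1 := selN (Fintype.card B) (k + 1) with hn1
  set q := (Finset.univ : Finset (Fin N × Fin (r + 1))).card with hq
  set nT := n1 ^ q * N + n1 * q + n1 with hnT
  obtain ⟨T, hTf, rkT0, injT0, hTcol0⟩ := hT nT nT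
  obtain ⟨t, eT, hTj⟩ := exists_equiv_fin (rkT0 j) (injT0 j)
  set rkT : Fin d → Fin t → ℕ := fun i a => rkT0 i (eT a) with hrkT
  have hTcol : ¬ Col rkT k (insert j G) nT nT (Cov rkT) := fun h => hTcol0 (h.transport eT)
  have injT : ∀ i, Function.Injective (rkT i) := fun i => (injT0 i).comp eT.injective
  have hTj' : ∀ a b, rkT j a < rkT j b ↔ a < b := hTj
  obtain ⟨R, hR⟩ : ∃ R, ∀ v, rkB i₀ v < R := by
    obtain ⟨R, hR⟩ := (Set.finite_range (rkB i₀)).bddAbove
    exact ⟨R + 1, fun v => Nat.lt_succ_of_le (hR ⟨v, rfl⟩)⟩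
  set x0 := (R + 2) * t with hx0
  set m := x0 + (R + 2) * t + (2 * t * t + 2 * t) + 3 * t with hm
  have hm3 : 3 * t ≤ m := by omega
  have hm2 : 2 * t * t + 2 * t ≤ m := by omega
  have hlev : ∀ n, n ≤ R → n * t + t + t ≤ x0 := by
    intro n hn
    have : n * t ≤ R * t := Nat.mul_le_mul_right _ hn
    have : x0 = R * t + 2 * t := by rw [hx0]; ring
    omega
  have hlevm : ∀ n, n ≤ R → x0 + (n * t + t) + t ≤ m := by
    intro n hn
    have h1 := hlev n hn
    have : x0 = (R + 2) * t := hx0
    omega
  -- Ramsey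
  obtain ⟨M, hM⟩ := ramsey_pairs t
    ((Fin N × Fin (r + 1) × Fin (k + 1) × (B × Fin t) × (B × Fin t) → Prop) ×
      ((B × Fin t) → Fin N) × (B × Fin t × Fin t × Fin (r + 1) → Prop)) m
  obtain ⟨rkP, injP, P1, P2, P3, P4⟩ := constr (M := M + 1) rkB injB rkT injT j i₀ hij hTj'
  refine ⟨B × (Fin t → Fin (M + 1)) × Fin (M + 1), inferInstance, rkP, injP, ?_⟩
  rintro ⟨χ, φ, hχ, hφ, hS⟩
  choose L sd L1 L2 L3 using hS
  obtain ⟨H, Hmono, Hhom⟩ := hM (fun e e' =>
    ((fun q => L q.1 q.2.1 q.2.2.1 (q.2.2.2.1.1, e, e q.2.2.2.1.2) <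
        L q.1 q.2.1 q.2.2.1 (q.2.2.2.2.1, e', e' q.2.2.2.2.2)),
     (fun s => (⟨χ (s.1, e, e s.2), hχ _⟩ : Fin N)),
     (fun q => φ (q.1, e, e q.2.1) (q.1, e, e q.2.2.1) = q.2.2.2.val)))
  let pt : B × Fin t → (Fin t → ℕ) → B × (Fin t → Fin (M + 1)) × Fin (M + 1) :=
    fun s e => (s.1, H ∘ e, H (e s.2))
  have Hsm : ∀ e, Val t m e → StrictMono (H ∘ e) := by
    intro e he a b hab
    exact Hmono _ _ (he.1 hab) (he.2 b)
  have hom : ∀ γ β, γ < N → β < r + 1 → ∀ m', Homog t m (fun s e => L γ β m' (pt s e)) := by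
    intro γ β hγ hβ m' s s' e e' E E' he he' hE hE' hp
    have h1 := Hhom e e' E E' he.1 he'.1 hE.1 hE'.1 he.2 he'.2 hE.2 hE'.2 hp
    have h2 := congrArg (fun c => c.1 (⟨γ, hγ⟩, ⟨β, hβ⟩, m', s, s')) h1
    simp only [eq_iff_iff] at h2
    exact h2
  have selfpat : ∀ e E : Fin t → ℕ, Val t m e → Val t m E → SamePat e e E E := by
    intro e E he hE
    exact ⟨fun a b => by rw [he.1.lt_iff_lt, hE.1.lt_iff_lt],
      fun a b => by rw [he.1.lt_iff_lt, hE.1.lt_iff_lt]⟩
  have χhom : ∀ s e E, Val t m e → Val t m E → χ (pt s e) = χ (pt s E) := by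
    intro s e E he hE
    have h1 := Hhom e e E E he.1 he.1 hE.1 hE.1 he.2 he.2 hE.2 hE.2 (selfpat e E he hE)
    have h2 := congrArg (fun c => (c.2.1 s).val) h1
    exact h2
  have φhom : ∀ v a b β e E, β < r + 1 → Val t m e → Val t m E →
      (φ (pt (v, a) e) (pt (v, b) e) = β ↔ φ (pt (v, a) E) (pt (v, b) E) = β) := by
    intro v a b β e E hβ he hE
    have h1 := Hhom e e E E he.1 he.1 hE.1 hE.1 he.2 he.2 hE.2 hE.2 (selfpat e E he hE)
    have h2 := congrArg (fun c => c.2.2 (v, a, b, ⟨β, hβ⟩)) h1
    simp only [eq_iff_iff] at h2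
    exact h2
  have hes : Val t m (Bl t 0) := val_Bl (by omega)
  let F : B → ℕ → ℕ → Fin t → Fin t → Prop := fun v γ β a b =>
    Cov rkT a b ∧ χ (pt (v, a) (Bl t 0)) = γ ∧ χ (pt (v, b) (Bl t 0)) = γ ∧
      φ (pt (v, a) (Bl t 0)) (pt (v, b) (Bl t 0)) = β
  have Fedge : ∀ v γ β a b e, β < r + 1 → F v γ β a b → Val t m e →
      Cov rkP (pt (v, a) e) (pt (v, b) e) ∧ χ (pt (v, a) e) = γ ∧ χ (pt (v, b) e) = γ ∧
        φ (pt (v, a) e) (pt (v, b) e) = β := by
    intro v γ β a b e hβ hF he
    refine ⟨P2 v (H ∘ e) a b (Hsm e he) hF.1, ?_, ?_, ?_⟩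
    · rw [χhom _ _ _ he hes]; exact hF.2.1
    · rw [χhom _ _ _ he hes]; exact hF.2.2.1
    · exact (φhom v a b β e _ hβ he hes).mpr hF.2.2.2
  -- Step A
  have stepA : ∀ v, ∃ γ β, γ < N ∧ β < r + 1 ∧ ¬ Col rkT k (insert j G) n1 n1 (F v γ β) := by
    intro v
    by_contra hcon
    push Not at hcon
    have u1 := col_biUnion (rk := rkT) (k := k) (G := insert j G) n1 n1
      (Finset.univ : Finset (Fin N × Fin (r + 1))) (fun q => F v q.1.val q.2.val)
      (fun q _ => hcon _ _ q.1.isLt q.2.isLt)
    have u2 : Col rkT k (insert j G) N 0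
        (fun a b => χ (pt (v, a) (Bl t 0)) ≠ χ (pt (v, b) (Bl t 0))) :=
      col_crossing (fun a => χ (pt (v, a) (Bl t 0))) (fun a => hχ _) (fun a b h => h)
    have u3 := Col.union (Θ := Cov rkT) (fun a b hab => ?_) u1 u2
    · refine hTcol (u3.mono (fun _ _ h => h) ?_ ?_)
      · rw [← hq]; omega
      · rw [← hq]; omega
    · by_cases hc : χ (pt (v, a) (Bl t 0)) = χ (pt (v, b) (Bl t 0))
      · left
        have hcov := P2 v (H ∘ (Bl t 0)) a b (Hsm _ hes) hab
        have hlt := hφ _ _ hcov hc
        exact ⟨(⟨χ (pt (v, a) (Bl t 0)), hχ _⟩,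
          ⟨φ (pt (v, a) (Bl t 0)) (pt (v, b) (Bl t 0)), hlt⟩), Finset.mem_univ _,
          hab, rfl, hc.symm, rfl⟩
      · right; exact hc
  -- Step B
  have stepB : ∀ γ β, ∃ z : B → B × (Fin t → Fin (M + 1)) × Fin (M + 1), γ < N → β < r + 1 →
      (∀ v, (z v).1 = v) ∧
      (∀ v, ¬ Col rkT k (insert j G) n1 n1 (F v γ β) → χ (z v) = γ) ∧
      (∀ u v, Cov rkB u v → Cov rkP (z u) (z v)) ∧
      (∀ u v, ¬ Col rkT k (insert j G) n1 n1 (F u γ β) →
        ¬ Col rkT k (insert j G) n1 n1 (F v γ β) → Cov rkB u v → φ (z u) (z v) ≠ β) := by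
    intro γ β
    by_cases hγ : γ < N
    swap
    · exact ⟨fun v => (v, fun _ => 0, 0), fun h => absurd h hγ⟩
    by_cases hβ : β < r + 1
    swap
    · exact ⟨fun v => (v, fun _ => 0, 0), fun _ h => absurd h hβ⟩
    let Act : B → Prop := fun v => ¬ Col rkT k (insert j G) n1 n1 (F v γ β)
    let Lp : Fin (k + 1) → B × Fin t → (Fin t → ℕ) → ℕ := fun m' s e => L γ β m' (pt s e)
    have homL : ∀ m', Homog t m (Lp m') := fun m' => hom γ β hγ hβ m'
    choose κ hκ using fun m' => (homL m').exists_kappa hm3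
    let ρ : Fin t → Fin t → Fin t := fun a b => if sd γ β then b else a
    let τ : B → ℕ := fun v => if sd γ β then R - rkB i₀ v else rkB i₀ v
    have hτ : Function.Injective τ := by
      intro u v huv
      have h1 := hR u
      have h2 := hR v
      apply injB i₀
      simp only [τ] at huv
      split_ifs at huv with h
      · omega
      · exact huv
    have hτR : ∀ v, τ v ≤ R := by
      intro v
      have h1 := hR v
      simp only [τ]
      split_ifs
      · omega
      · omega
    let Bad : B → Fin t → Fin t → B → Fin (k + 1) → Fin t → Fin t → Prop :=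
      fun v a b w m' a' b' => Act v ∧ Act w ∧
        Incl t (Lp m') (v, a) (v, b) (ρ a b) (fun c => (w, c)) (ρ a' b')
    have hsel1 : ∀ x, ¬ Col rkT k (insert j G) n1 n1
        (fun a b => Cov rkT a b ∧ (Act x → F x γ β a b)) := by
      intro x hx
      by_cases hact : Act x
      · exact hact (hx.mono (fun a b hab => ⟨hab.1, fun _ => hab⟩) le_rfl le_rfl)
      · exact hTcol (hx.mono (fun a b hab => ⟨hab, fun h => absurd h hact⟩) (by omega) (by omega))
    have hsel2 : ∀ v a b w m' a' b', Bad v a b w m' a' b' →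
        κ m' (v, a) ≤ κ m' (w, ρ a' b') ∧ κ m' (w, ρ a' b') ≤ κ m' (v, b) := by
      rintro v a b w m' a' b' ⟨_, _, h⟩
      exact (homL m').incl_kappa hm3 hm2 (hκ m') h
    have hE0 : Val t m (E0 t) := val_E0 hm2
    have hsel3 : ∀ v a b w m', (Cov rkT a b ∧ (Act v → F v γ β a b)) →
        ¬ (κ m' (v, a) < κ m' (v, b)) → Col rkT k (insert j G) 2 1
        (fun a' b' => (Cov rkT a' b' ∧ (Act w → F w γ β a' b')) ∧ Bad v a b w m' a' b') := by
      intro v a b w m' hab hnt
      by_cases hact : Act v ∧ Act w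
      swap
      · exact col_empty (by norm_num) (fun x y h => hact ⟨h.2.1, h.2.2.1⟩)
      obtain ⟨hav, haw⟩ := hact
      let Cs : Fin t → Prop := fun c =>
        Incl t (Lp m') (v, a) (v, b) (ρ a b) (fun c => (w, c)) c
      have hcl := (homL m').claim1 hm3 hm2 (hκ m') (s1 := (v, a)) (s2 := (v, b)) hnt (ρ a b)
        (fun c => (w, c))
      have inc : ∀ x y, F w γ β x y → ∀ m'', Lp m'' (w, x) (E0 t) < Lp m'' (w, y) (E0 t) :=
        fun x y hF m'' => L2 γ β m'' _ _ (Fedge w γ β x y _ hβ hF hE0)
      refine ⟨fun c => if Cs c then 0 else 1, fun _ _ => 0, ?_, ?_, ?_⟩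
      · intro c
        beta_reduce
        split_ifs <;> norm_num
      · intro _ _ _ _
        norm_num
      · intro c b'
        have both : ∀ x y, (((Cov rkT x y ∧ (Act w → F w γ β x y)) ∧ Bad v a b w m' x y) ∧
            (if Cs x then 0 else 1) = c ∧ (if Cs y then 0 else 1) = c ∧ 0 = b') →
            F w γ β x y ∧ Cs x ∧ Cs y := by
          rintro x y ⟨⟨h1, h2⟩, h3, h4, _⟩
          have hF := h1.2 haw
          have hCρ : Cs (ρ x y) := h2.2.2
          by_cases hx : Cs x
          · by_cases hy : Cs y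
            · exact ⟨hF, hx, hy⟩
            · rw [if_pos hx] at h3
              rw [if_neg hy] at h4
              omega
          · by_cases hy : Cs y
            · rw [if_neg hx] at h3
              rw [if_pos hy] at h4
              omega
            · exfalso
              simp only [ρ] at hCρ
              split_ifs at hCρ
              · exact hy hCρ
              · exact hx hCρ
        rcases hcl with hinc | hdec
        · refine ⟨fun i c => Lp (m'.succAbove i) (w, c) (E0 t), sd γ β, ?_, ?_, ?_⟩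
          · intro i x y hxy
            have h1 := L1 γ β (m'.succAbove i) hxy
            have h2 : H (E0 t x) = H (E0 t y) := by
              simp only [pt, Prod.mk.injEq] at h1
              exact h1.2.2
            exact (Hsm _ hE0).injective h2
          · intro i x y hxy
            exact inc x y (both x y hxy).1 _
          · intro x y z hx hy hM hG
            refine L3 γ β (pt (w, x) (E0 t)) (pt (w, y) (E0 t)) (pt (w, z) (E0 t)) ?_ ?_ ?_ ?_
            · exact hx.map (fun c => pt (w, c) (E0 t))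
                (fun x y h => Fedge w γ β x y _ hβ (both x y h).1 hE0)
            · exact hy.map (fun c => pt (w, c) (E0 t))
                (fun x y h => Fedge w γ β x y _ hβ (both x y h).1 hE0)
            · intro m''
              have hxy : x < y := (hTj' x y).mp (hG j (Finset.mem_insert_self _ _))
              have hCx : Cs x := hx.left (p := Cs) (fun x y h => (both x y h).2)
              have hCy : Cs y := hy.left (p := Cs) (fun x y h => (both x y h).2)
              rcases Fin.eq_self_or_eq_succAbove m' m'' with h | ⟨i, h⟩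
              · rw [h]; exact hinc x y hxy hCx hCy
              · rw [h]; exact hM i
            · intro i hi
              have hne : i ≠ j := fun h => hjG (h ▸ hi)
              exact P4 i hne w (H ∘ E0 t) x y (Hsm _ hE0) (hG i (Finset.mem_insert_of_mem hi))
        · apply simple_empty
          intro x y h
          obtain ⟨hF, hx, hy⟩ := both x y h
          have hxy : x < y := (hTj' x y).mp (hF.1.1 j)
          have h1 := hdec x y hxy hx hy
          have h2 := inc x y hF m'
          omega
    obtain ⟨θ, hθ, hbad⟩ := selection (rk := rkT) (k := k) (G := insert j G) τ hτ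
      (fun m' v a => κ m' (v, a)) ρ
      (fun v a b => Cov rkT a b ∧ (Act v → F v γ β a b)) Bad hsel1 hsel2 hsel3
    let e : B → Fin t → ℕ := fun v => emb t x0 (τ v) (ρ (θ v).1 (θ v).2)
    have he : ∀ v, Val t m (e v) := by
      intro v
      have h1 := hlev (τ v) (hτR v)
      have h2 := hlevm (τ v) (hτR v)
      exact val_emb (by omega) (by omega)
    have hFθ : ∀ v, Act v → F v γ β (θ v).1 (θ v).2 := fun v hv => (hθ v).2 hv
    let z : B → B × (Fin t → Fin (M + 1)) × Fin (M + 1) := fun v =>
      pt (v, ρ (θ v).1 (θ v).2) (e v)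
    have hz : ∀ v, z v = (v, H ∘ e v, H x0) := by
      intro v
      simp only [z, pt, e, emb_self]
    have hcovz : ∀ u v, Cov rkB u v → Cov rkP (z u) (z v) := by
      intro u v huv
      rw [hz, hz]
      exact P1 u v _ _ _ huv
    have hχz : ∀ v, Act v → χ (z v) = γ := by
      intro v hv
      have h1 := Fedge v γ β _ _ (e v) hβ (hFθ v hv) (he v)
      simp only [z, ρ]
      split_ifs
      · exact h1.2.2.1
      · exact h1.2.1
    refine ⟨z, fun _ _ => ⟨fun v => rfl, hχz, hcovz, ?_⟩⟩
    intro u v hu hv huv hφe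
    have hcls : Cov rkP (z u) (z v) ∧ χ (z u) = γ ∧ χ (z v) = γ ∧ φ (z u) (z v) = β :=
      ⟨hcovz u v huv, hχz u hu, hχz v hv, hφe⟩
    have huv' : u ≠ v := by
      intro h
      rw [h] at huv
      exact absurd (huv.1 i₀) (lt_irrefl _)
    cases hsd : sd γ β with
    | true =>
      have hρ : ∀ a b, ρ a b = b := fun a b => by simp only [ρ, hsd, if_true]
      have hττ : τ v < τ u := by
        simp only [τ, hsd, if_true]
        have h1 := hR u
        have h2 := hR v
        have h3 := huv.1 i₀
        omega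
      have hbd := hbad v u hττ
      have hedge := Fedge v γ β _ _ (e v) hβ (hFθ v hv) (he v)
      have hzv : z v = pt (v, (θ v).2) (e v) := by simp only [z, hρ]
      have hzu : z u = pt (u, (θ u).2) (e u) := by simp only [z, hρ]
      rw [← hzv] at hedge
      refine L3 γ β (z u) (pt (v, (θ v).1) (e v)) (z v) ?_ ?_ ?_ ?_
      · rw [hsd]; simp only [Edg, if_true]; exact hcls
      · rw [hsd]; simp only [Edg, if_true]; exact hedge
      · intro m'
        by_contra hlt
        have hne : z u ≠ pt (v, (θ v).1) (e v) := fun h => huv' (congrArg (fun w => w.1) h)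
        have h1 : L γ β m' (pt (v, (θ v).1) (e v)) < L γ β m' (z u) := by
          rcases lt_or_eq_of_le (not_lt.mp hlt) with h | h
          · exact h
          · exact absurd (L1 γ β m' h.symm) hne
        have h2 : L γ β m' (z u) < L γ β m' (z v) := L2 γ β m' _ _ hcls
        apply hbd m'
        refine ⟨hv, hu, ?_⟩
        rw [hρ, hρ]
        have hlu := hlev (τ u) (hτR u)
        have hlmu := hlevm (τ u) (hτR u)
        refine (homL m').incl_nested hm2 (x := x0) hττ (by omega) (by omega) (v, (θ v).1)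
          (v, (θ v).2) (fun c => (u, c)) ⟨?_, ?_⟩
        · have := h1
          rw [hzu] at this
          simp only [e, hρ] at this
          exact this
        · have := h2
          rw [hzu, hzv] at this
          simp only [e, hρ] at this
          exact this
      · intro i hi
        have hne : i ≠ j := fun h => hjG (h ▸ hi)
        rw [hz u]
        exact P3 i hne u v _ _ _ _ (huv.1 i)
    | false =>
      have hρ : ∀ a b, ρ a b = a := fun a b => by simp [ρ, hsd]
      have hττ : τ u < τ v := by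
        simp only [τ, hsd]
        have h3 := huv.1 i₀
        simpa using h3
      have hbd := hbad u v hττ
      have hedge := Fedge u γ β _ _ (e u) hβ (hFθ u hu) (he u)
      have hzv : z v = pt (v, (θ v).1) (e v) := by simp only [z, hρ]
      have hzu : z u = pt (u, (θ u).1) (e u) := by simp only [z, hρ]
      rw [← hzu] at hedge
      refine L3 γ β (pt (u, (θ u).2) (e u)) (z v) (z u) ?_ ?_ ?_ ?_
      · rw [hsd]; simp only [Edg]; exact hedge
      · rw [hsd]; simp only [Edg]; exact hcls
      · intro m'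
        by_contra hlt
        have hne : z v ≠ pt (u, (θ u).2) (e u) := fun h => huv' (congrArg (fun w => w.1) h).symm
        have h1 : L γ β m' (z v) < L γ β m' (pt (u, (θ u).2) (e u)) := by
          rcases lt_or_eq_of_le (not_lt.mp hlt) with h | h
          · exact h
          · exact absurd (L1 γ β m' h) hne
        have h2 : L γ β m' (z u) < L γ β m' (z v) := L2 γ β m' _ _ hcls
        apply hbd m'
        refine ⟨hu, hv, ?_⟩
        rw [hρ, hρ]
        have hlu := hlev (τ v) (hτR v)
        have hlmu := hlevm (τ v) (hτR v)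
        refine (homL m').incl_nested hm2 (x := x0) hττ (by omega) (by omega) (u, (θ u).1)
          (u, (θ u).2) (fun c => (v, c)) ⟨?_, ?_⟩
        · have := h2
          rw [hzu, hzv] at this
          simp only [e, hρ] at this
          exact this
        · have := h1
          rw [hzv] at this
          simp only [e, hρ] at this
          exact this
      · intro i hi
        have hne : i ≠ j := fun h => hjG (h ▸ hi)
        rw [hz v]
        exact P3 i hne u v _ _ _ _ (huv.1 i)
  -- Step C
  choose z hz using stepB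
  choose γf βf hγf hβf hrich using stepA
  have hdec : ∀ v, (γf v + N * βf v) % N = γf v ∧ (γf v + N * βf v) / N = βf v := by
    intro v
    constructor
    · rw [Nat.add_mul_mod_self_left, Nat.mod_eq_of_lt (hγf v)]
    · rw [Nat.add_mul_div_left _ _ hN0, Nat.div_eq_of_lt (hγf v), zero_add]
  apply hBcol
  refine ⟨fun v => γf v + N * βf v, fun u v =>
    if φ (z (γf u) (βf u) u) (z (γf u) (βf u) v) < βf u then
      φ (z (γf u) (βf u) u) (z (γf u) (βf u) v) else
      φ (z (γf u) (βf u) u) (z (γf u) (βf u) v) - 1, ?_, ?_, ?_⟩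
  · intro v
    have h1 := hγf v
    have h2 := hβf v
    calc γf v + N * βf v < N + N * βf v := by omega
      _ = N * (βf v + 1) := by ring
      _ ≤ N * (r + 1) := Nat.mul_le_mul_left _ h2
  · intro x y hxy hc
    beta_reduce at hc
    have e1 : γf y = γf x := by rw [← (hdec x).1, ← (hdec y).1, hc]
    have e2 : βf y = βf x := by rw [← (hdec x).2, ← (hdec y).2, hc]
    obtain ⟨_, z2, z3, z4⟩ := hz (γf x) (βf x) (hγf x) (hβf x)
    have hy : ¬ Col rkT k (insert j G) n1 n1 (F y (γf x) (βf x)) := by
      have := hrich y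
      rwa [e1, e2] at this
    have h1 := z4 x y (hrich x) hy hxy
    have h2 := hφ _ _ (z3 x y hxy) ((z2 x (hrich x)).trans (z2 y hy).symm)
    have h3 := hβf x
    beta_reduce
    split_ifs with h
    · omega
    · omega
  · intro c b
    by_cases hc : c / N < r + 1
    swap
    · apply simple_empty
      rintro x y ⟨_, h1, _, _⟩
      apply hc
      rw [← h1, (hdec x).2]
      exact hβf x
    have hcN : c % N < N := Nat.mod_lt _ hN0
    obtain ⟨z1, z2, z3, z4⟩ := hz (c % N) (c / N) hcN hc
    have cls : ∀ x y, (Cov rkB x y ∧ γf x + N * βf x = c ∧ γf y + N * βf y = c ∧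
        (if φ (z (γf x) (βf x) x) (z (γf x) (βf x) y) < βf x then
      φ (z (γf x) (βf x) x) (z (γf x) (βf x) y) else
      φ (z (γf x) (βf x) x) (z (γf x) (βf x) y) - 1) = b) →
        (Cov rkP (z (c % N) (c / N) x) (z (c % N) (c / N) y) ∧
          χ (z (c % N) (c / N) x) = c % N ∧ χ (z (c % N) (c / N) y) = c % N ∧
          φ (z (c % N) (c / N) x) (z (c % N) (c / N) y) = (if b < c / N then b else b + 1)) := by
      rintro x y ⟨hxy, hx, hy, hb⟩
      have a1 : γf x = c % N := by rw [← hx]; exact (hdec x).1.symm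
      have a2 : βf x = c / N := by rw [← hx]; exact (hdec x).2.symm
      have a3 : γf y = c % N := by rw [← hy]; exact (hdec y).1.symm
      have a4 : βf y = c / N := by rw [← hy]; exact (hdec y).2.symm
      rw [a1, a2] at hb
      have rx : ¬ Col rkT k (insert j G) n1 n1 (F x (c % N) (c / N)) := by
        have := hrich x
        rwa [a1, a2] at this
      have ry : ¬ Col rkT k (insert j G) n1 n1 (F y (c % N) (c / N)) := by
        have := hrich y
        rwa [a3, a4] at this
      refine ⟨z3 x y hxy, z2 x rx, z2 y ry, ?_⟩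
      have h1 := z4 x y rx ry hxy
      split_ifs at hb with h2
      · rw [if_pos (by omega)]
        exact hb
      · rw [if_neg (by omega)]
        omega
    refine ⟨fun m' v => L (c % N) (if b < c / N then b else b + 1) m' (z (c % N) (c / N) v),
      sd (c % N) (if b < c / N then b else b + 1), ?_, ?_, ?_⟩
    · intro m' x y hxy
      have h1 := L1 _ _ m' hxy
      rw [← z1 x, ← z1 y, h1]
    · intro m' x y hxy
      exact L2 _ _ m' _ _ (cls x y hxy)
    · intro x y w hx hy hM hG
      refine L3 _ _ (z (c % N) (c / N) x) (z (c % N) (c / N) y) (z (c % N) (c / N) w) ?_ ?_ hM ?_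
      · exact hx.map (z (c % N) (c / N)) cls
      · exact hy.map (z (c % N) (c / N)) cls
      · intro i hi
        have hne : i ≠ j := fun h => hjG (h ▸ hi)
        have h1 := P3 i hne x y (z (c % N) (c / N) x).2.1 (z (c % N) (c / N) y).2.1
          (z (c % N) (c / N) x).2.2 (z (c % N) (c / N) y).2.2 (hG i hi)
        have e1 : z (c % N) (c / N) x = (x, (z (c % N) (c / N) x).2.1, (z (c % N) (c / N) x).2.2) :=
          Prod.ext (z1 x) rfl
        have e2 : z (c % N) (c / N) y = (y, (z (c % N) (c / N) y).2.1, (z (c % N) (c / N) y).2.2) :=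
          Prod.ext (z1 y) rfl
        rw [e1, e2]
        exact h1

end Pool.Agent.Hhelper41.Cover
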